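import Pool.Agent.Helper65.GN.Defs
import Pool.Agent.Helper65.TH.AsdimSub

/-!
GN-10. Groups of finite asymptotic dimension.

Proof. Given finite `T` and `S ⊆ H`, apply `AsdimLT.lift` (for `Λ = H`, `F = S`): sets `A i`, `i : Fin t`,
covering `G`, `E`. Put `w x = i + 1` where `i` is chosen with `x ∈ A i`. Then `w x ≤ t`, the zero set
of `w` is empty, and for `i ≥ 1` the level set `{w = i}` is contained in `A (i - 1)` (or empty).
-/

set_option autoImplicit false

namespace Pool.Agent.Helper65.GN

open Pool.Agent.Helper65.TH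

theorem sep_of_asdim {G : Type*} [Group G] (H : Subgroup G) {t : ℕ} (h : AsdimLT H t)
    (L : Subgroup G) : Sep H L t := by
  classical
  intro T S _ hS
  obtain ⟨E, A, hcov, hbd⟩ := AsdimLT.lift H h S hS
  choose i hi using hcov
  refine ⟨fun x => i x + 1, E, fun x => (i x).2, ?_, ?_⟩
  · intro x hx
    exact absurd hx (Nat.succ_ne_zero _)
  · intro j _ x hx y hxy
    have h1 : ∀ z, z ∈ {x | (i x : ℕ) + 1 = j} → z ∈ A (i x) := by
      intro z hz
      have h2 : i z = i x := by
        apply Fin.ext
        have h3 : (i x : ℕ) + 1 = j := hx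
        have h4 : (i z : ℕ) + 1 = j := hz
        omega
      rw [← h2]
      exact hi z
    exact hbd (i x) x (hi x) y (hxy.mono (Set.Subset.refl _) fun b hb => h1 b hb)

end Pool.Agent.Helper65.GN
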