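import Pool.Agent.Helper65.GN.Union

/-!
GN-12. The extension theorem.

Proof. Let `S : ℕ → Finset G` be given. Choose for every `y ∈ Q` an element `h y : G` with `h 1 = 1` and
`f (h y) = y` if `y` is in the range of `f`. Apply `hT` to the sequence `i ↦ (S i).image f`: `n₁`,
`A₁ i`, `E₁`. Let `H = E₁.image h ∪ {1}`, and let `F = T ∪ ⋃ i ≤ n₁, S i`; let `T'` be the finite set of the
`h * s * h'⁻¹`, `h, h' ∈ H`, `s ∈ F`, which are in the kernel. `hN T'` for the sequence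
`j ↦ {h * s * h'⁻¹ | h, h' ∈ H, s ∈ S (n₁ + j)}` gives `n₂`, `A₂ j`, `E₂`. Put `n = n₁ + n₂`,
`A i = {x | f x ∈ A₁ i ∧ ∀ h ∈ H, x * h⁻¹ ∈ A₂ 0}` for `i ≤ n₁` and `A (n₁ + j) = {x | ∃ h ∈ H, x * h⁻¹ ∈ A₂ j}`
for `1 ≤ j ≤ n₂`, `E` = all `e * h`, and all `h⁻¹ * e * h'` (`e ∈ E₂`, `h, h' ∈ H`).
Cover: `f x ∈ A₁ i` for some `i ≤ n₁`; if `x` is not in `A i` there is `h ∈ H` with `x * h⁻¹ ∉ A₂ 0`, so
`x * h⁻¹ ∈ A₂ j` with `1 ≤ j ≤ n₂`.
Chains in `A i`, `i ≤ n₁`, with steps in `F_i` (`F_0 = T`, `F_i = S i`), from `x`: the `f x_j` form a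
chain in `A₁ i` with steps in `F_i.image f`, so `y_j = (f x)⁻¹ * f x_j ∈ E₁`. Put
`z_j = x_j * (h y_j)⁻¹`, `z_0 = x`. `z_j ∈ A₂ 0`, and `z_j⁻¹ * z_(j+1) = h y_j * s_j * (h y_(j+1))⁻¹` is in the
kernel, so in `T'`. So `x⁻¹ * z_j ∈ E₂` and `x⁻¹ * x_j ∈ E₂ * H` (cf. the proof of `thin_ext` in
`TH/ThmB.lean`, which has the same structure). The bound for `y_j` at the start point is not needed
as `h 1 = 1`, `1 ∈ H`.
Chains in `A (n₁ + j)` with steps in `S (n₁ + j)`: choose `h_i` with `x_i * h_i⁻¹ ∈ A₂ j`; the steps are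
`h_i * s * h_(i+1)⁻¹`.
-/

set_option autoImplicit false

namespace Pool.Agent.Helper65.GN

open Pool.Agent.Helper65.TH

theorem good_ext {G Q : Type*} [Group G] [Group Q] [DecidableEq Q] (f : G →* Q) (T : Finset G)
    (hT : Good (T.image f)) (hN : ∀ T' : Finset G, (∀ s ∈ T', f s = 1) → Good T') : Good T := by
  classical
  intro S
  obtain ⟨n₁, A₁, E₁, hc₁, hb0, hb1⟩ := hT (fun i => (S i).image f)
  have hlift : ∀ y : Q, ∃ g : G, (y = 1 → g = 1) ∧ ((∃ x, f x = y) → f g = y) := by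
    intro y
    by_cases hy1 : y = 1
    · exact ⟨1, fun _ => rfl, fun _ => by rw [map_one, hy1]⟩
    · by_cases hy : ∃ x, f x = y
      · obtain ⟨g, hg⟩ := hy
        exact ⟨g, fun h' => absurd h' hy1, fun _ => hg⟩
      · exact ⟨1, fun _ => rfl, fun h' => absurd h' hy⟩
  choose h hh1 hh using hlift
  obtain ⟨H, hH⟩ : ∃ H : Finset G, H = insert 1 (E₁.image h) := ⟨_, rfl⟩
  have hH1 : (1 : G) ∈ H := by rw [hH]; exact Finset.mem_insert_self _ _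
  have hHE : ∀ y ∈ E₁, h y ∈ H := by
    intro y hy
    rw [hH]
    exact Finset.mem_insert_of_mem (Finset.mem_image_of_mem h hy)
  obtain ⟨F, hF⟩ : ∃ F : Finset G, F = T ∪ (Finset.range (n₁ + 1)).biUnion S := ⟨_, rfl⟩
  obtain ⟨P, hP⟩ : ∃ P : Finset G → Finset G,
    P = fun F => (H ×ˢ F ×ˢ H).image (fun p => p.1 * p.2.1 * p.2.2⁻¹) := ⟨_, rfl⟩
  have hPmem : ∀ (F : Finset G) (a s b : G), a ∈ H → s ∈ F → b ∈ H → a * s * b⁻¹ ∈ P F := by
    intro F a s b ha hs hb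
    rw [hP]
    refine Finset.mem_image.2 ⟨(a, s, b), ?_, rfl⟩
    rw [Finset.mem_product, Finset.mem_product]
    exact ⟨ha, hs, hb⟩
  obtain ⟨n₂, A₂, E₂, hc₂, hd0, hd1⟩ := hN ((P F).filter (fun s => f s = 1))
    (fun s hs => (Finset.mem_filter.1 hs).2) (fun j => P (S (n₁ + j)))
  obtain ⟨E, hE⟩ : ∃ E : Finset G, E = (E₂ ×ˢ H).image (fun p => p.1 * p.2) ∪
    (H ×ˢ E₂ ×ˢ H).image (fun p => p.1⁻¹ * p.2.1 * p.2.2) := ⟨_, rfl⟩
  -- the sets of the first kind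
  have key1 : ∀ (F' : Finset G) (i : ℕ), F' ⊆ F → Bdd ((F'.image f : Finset Q) : Set Q) (A₁ i) E₁ →
      Bdd (F' : Set G) {x | f x ∈ A₁ i ∧ ∀ g ∈ H, x * g⁻¹ ∈ A₂ 0} E := by
    intro F' i hF' hb x hx y hxy
    let R : G → Prop := fun z =>
      Chain ((F'.image f : Finset Q) : Set Q) (fun b => b ∈ A₁ i) (f x) (f z) ∧
      Chain (((P F).filter (fun s => f s = 1) : Finset G) : Set G) (fun b => b ∈ A₂ 0) x
        (z * (h ((f x)⁻¹ * f z))⁻¹)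
    have hR : R y := by
      refine hxy.rec' (R := R) ?_ ?_
      · refine ⟨Chain.refl _ _ _, ?_⟩
        rw [inv_mul_cancel, hh1 1 rfl, inv_one, mul_one]
        exact Chain.refl _ _ _
      · rintro p q _ ⟨hc1, hc2⟩ hs hq
        have hc1' : Chain ((F'.image f : Finset Q) : Set Q) (fun b => b ∈ A₁ i) (f x) (f q) := by
          refine hc1.step ?_ hq.1
          rw [← map_inv, ← map_mul]
          exact Finset.mem_coe.2 (Finset.mem_image_of_mem f (Finset.mem_coe.1 hs))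
        have hp : h ((f x)⁻¹ * f p) ∈ H := hHE _ (hb _ hx.1 _ hc1)
        have hq' : h ((f x)⁻¹ * f q) ∈ H := hHE _ (hb _ hx.1 _ hc1')
        have hpf : f (h ((f x)⁻¹ * f p)) = (f x)⁻¹ * f p :=
          hh _ ⟨x⁻¹ * p, by rw [map_mul, map_inv]⟩
        have hqf : f (h ((f x)⁻¹ * f q)) = (f x)⁻¹ * f q :=
          hh _ ⟨x⁻¹ * q, by rw [map_mul, map_inv]⟩
        refine ⟨hc1', hc2.step ?_ (hq.2 _ hq')⟩
        have h1 : (p * (h ((f x)⁻¹ * f p))⁻¹)⁻¹ * (q * (h ((f x)⁻¹ * f q))⁻¹) =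
            h ((f x)⁻¹ * f p) * (p⁻¹ * q) * (h ((f x)⁻¹ * f q))⁻¹ := by group
        rw [h1, Finset.mem_coe, Finset.mem_filter]
        refine ⟨hPmem F _ _ _ hp (hF' (Finset.mem_coe.1 hs)) hq', ?_⟩
        rw [map_mul, map_mul, map_inv, hpf, hqf, map_mul, map_inv]
        group
    obtain ⟨hc1, hc2⟩ := hR
    have hy : h ((f x)⁻¹ * f y) ∈ H := hHE _ (hb _ hx.1 _ hc1)
    have hx2 : x ∈ A₂ 0 := by
      have := hx.2 1 hH1
      rwa [inv_one, mul_one] at this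
    have he := hd0 x hx2 _ hc2
    rw [hE]
    refine Finset.mem_union_left _ (Finset.mem_image.2
      ⟨(x⁻¹ * (y * (h ((f x)⁻¹ * f y))⁻¹), h ((f x)⁻¹ * f y)), ?_, ?_⟩)
    · rw [Finset.mem_product]
      exact ⟨he, hy⟩
    · group
  -- the sets of the second kind
  have key2 : ∀ j, 1 ≤ j → j ≤ n₂ →
      Bdd (S (n₁ + j) : Set G) {x | ∃ g ∈ H, x * g⁻¹ ∈ A₂ j} E := by
    rintro j hj hj' x ⟨g, hg, hgx⟩ y hxy
    let R : G → Prop := fun z => ∃ g' ∈ H,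
      Chain ((P (S (n₁ + j)) : Finset G) : Set G) (fun b => b ∈ A₂ j) (x * g⁻¹) (z * g'⁻¹)
    have hR : R y := by
      refine hxy.rec' (R := R) ⟨g, hg, Chain.refl _ _ _⟩ ?_
      rintro p q _ ⟨g', hg', hc⟩ hs ⟨g'', hg'', hq⟩
      refine ⟨g'', hg'', hc.step ?_ hq⟩
      have h1 : (p * g'⁻¹)⁻¹ * (q * g''⁻¹) = g' * (p⁻¹ * q) * g''⁻¹ := by group
      rw [h1, Finset.mem_coe]
      exact hPmem _ _ _ _ hg' (Finset.mem_coe.1 hs) hg''
    obtain ⟨g', hg', hc⟩ := hR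
    have he := hd1 j hj hj' _ hgx _ hc
    rw [hE]
    refine Finset.mem_union_right _ (Finset.mem_image.2
      ⟨(g, (x * g⁻¹)⁻¹ * (y * g'⁻¹), g'), ?_, ?_⟩)
    · rw [Finset.mem_product, Finset.mem_product]
      exact ⟨hg, he, hg'⟩
    · group
  refine ⟨n₁ + n₂, fun i => if i ≤ n₁ then {x | f x ∈ A₁ i ∧ ∀ g ∈ H, x * g⁻¹ ∈ A₂ 0}
    else {x | ∃ g ∈ H, x * g⁻¹ ∈ A₂ (i - n₁)}, E, ?_, ?_, ?_⟩
  · intro x
    obtain ⟨i, hi, hxi⟩ := hc₁ (f x)
    by_cases hx : ∀ g ∈ H, x * g⁻¹ ∈ A₂ 0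
    · refine ⟨i, by omega, ?_⟩
      beta_reduce
      rw [if_pos hi]
      exact ⟨hxi, hx⟩
    · push Not at hx
      obtain ⟨g, hg, hgx⟩ := hx
      obtain ⟨j, hj, hxj⟩ := hc₂ (x * g⁻¹)
      have hj0 : j ≠ 0 := by
        rintro rfl
        exact hgx hxj
      refine ⟨n₁ + j, by omega, ?_⟩
      beta_reduce
      rw [if_neg (by omega), Nat.add_sub_cancel_left]
      exact ⟨g, hg, hxj⟩
  · beta_reduce
    rw [if_pos (Nat.zero_le _)]
    refine key1 T 0 ?_ hb0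
    rw [hF]
    exact Finset.subset_union_left
  · intro i hi hi'
    beta_reduce
    by_cases hin : i ≤ n₁
    · rw [if_pos hin]
      refine key1 (S i) i ?_ (hb1 i hi hin)
      rw [hF]
      refine Finset.Subset.trans ?_ Finset.subset_union_right
      exact Finset.subset_biUnion_of_mem S (Finset.mem_range.2 (by omega))
    · rw [if_neg hin]
      have := key2 (i - n₁) (by omega) (by omega)
      rwa [Nat.add_sub_cancel' (by omega)] at this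

end Pool.Agent.Helper65.GN
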