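import Pool.Agent.Helper65.GN.Comm

/-!
GN-17. Solvable normal subgroups.
-/

set_option autoImplicit false

namespace Pool.Agent.Helper65.GN

open Pool.Agent.Helper75.Apc (LocallyPolynomialGrowth)
open scoped commutatorElement

variable {G : Type*} [Group G]

/-- the derived series of `N`, as subgroups of `G` -/
def dsub (N : Subgroup G) : ℕ → Subgroup G
  | 0 => N
  | r + 1 => ⁅dsub N r, dsub N r⁆

theorem dsub_map (N : Subgroup G) (r : ℕ) :
    (derivedSeries N r).map N.subtype = dsub N r := by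
  induction r with
  | zero =>
    rw [derivedSeries_zero, ← MonoidHom.range_eq_map, Subgroup.range_subtype]
    rfl
  | succ r ih =>
    rw [derivedSeries_succ, Subgroup.map_commutator, ih]
    rfl

theorem dsub_comm (N : Subgroup G) (r : ℕ) : dsub ⁅N, N⁆ r = dsub N (r + 1) := by
  induction r with
  | zero => rfl
  | succ r ih =>
    change ⁅dsub ⁅N, N⁆ r, dsub ⁅N, N⁆ r⁆ = ⁅dsub N (r + 1), dsub N (r + 1)⁆
    rw [ih]

theorem nice_of_comm (K : Subgroup G) (h : ∀ a ∈ K, ∀ b ∈ K, a * b = b * a) : Nice K := by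
  intro T hT
  refine ⟨K, hT, Ascendant.refl, Or.inr (growth_of_comm' ?_)⟩
  rintro ⟨a, ha⟩ ⟨b, hb⟩
  exact Subtype.ext (h a ha b hb)

theorem reach_of_dsub (r : ℕ) : ∀ N : Subgroup G, N.Normal → dsub N r = ⊥ → Reach N := by
  induction r with
  | zero =>
    intro N _ h
    have h' : N = ⊥ := h
    rw [h']
    exact Reach.bot
  | succ r ih =>
    intro N hN h
    have hD : Reach ⁅N, N⁆ := ih ⁅N, N⁆ inferInstance (by rw [dsub_comm]; exact h)
    have hle : ⁅N, N⁆ ≤ N := Subgroup.commutator_le_left N N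
    refine Reach.step ⁅N, N⁆ N hD hle (nice_of_comm _ ?_)
    rintro _ ⟨a, ha, rfl⟩ _ ⟨b, hb, rfl⟩
    rw [← map_mul, ← map_mul]
    change ((a * b : G) : G ⧸ ⁅N, N⁆) = ((b * a : G) : G ⧸ ⁅N, N⁆)
    rw [QuotientGroup.eq]
    have h1 : (a * b)⁻¹ * (b * a) = ⁅b⁻¹, a⁻¹⁆ := by
      rw [commutatorElement_def]
      group
    rw [h1]
    exact Subgroup.commutator_mem_commutator (N.inv_mem hb) (N.inv_mem ha)

theorem reach_of_solvable (N : Subgroup G) (hN : N.Normal) (h : Group.IsSolvable N) : Reach N := by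
  obtain ⟨r, hr⟩ := h.solvable
  refine reach_of_dsub r N hN ?_
  rw [← dsub_map, hr, Subgroup.map_bot]

end Pool.Agent.Helper65.GN
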