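import Pool.Agent.Helper65.GN.Union
import Pool.Agent.Helper65.TH.Families

/-!
GN-14. From chains to families of sets and back.

Proof. `good_of_apc`: given a sequence `S`. Put `R i = 1 + i + ∑ j ≤ i + 1, ∑ s ∈ S j ∪ T, dist 1 s`
(positive, monotone, at least the length of every element of `T` and of `S j`, `j ≤ i + 1`). Let `n`
and the families `U i`, `i : Fin n`, be from `h R`. Put `A i = ⋃₀ U i` for `i < n` and `A n = ∅`; the number
of the sets is fine: every `x` lies in some `A i`, `i < n`, so `i ≤ n`. Let `x_0, x_1, ...` be a chain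
in `A i` with steps of length at most `R i`, and `B ∈ U i` with `x_0 ∈ B`. If `x_j ∈ B` and `x_(j+1) ∈ B'`,
`B' ∈ U i`, `B' ≠ B`, then `dist x_j x_(j+1) ≥ δ > R i`, a contradiction to
`dist x_j x_(j+1) = dist 1 (x_j⁻¹ * x_(j+1)) ≤ R i`. So all `x_j ∈ B`, and
`dist 1 (x_0⁻¹ * x_j) = dist x_0 x_j ≤ D i`. Let `E` be the finite set of all `g` with
`dist g 1 ≤ ∑ i, |D i|` (`hprop`). (The elements of `T` are used for `i = 0`, those of `S i` for
`i ≥ 1`, `i < n`.)
`apc_of_good`: given `R`. Let `T` be the ball of radius `R 0 + 1` and `S i` the ball of radius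
`R i + 1` (finite symmetric sets, `hprop`). `Good T` for `S`: `n`, `A`, `E`. `HasFamilies G R (n + 1)` with
`U i` = the set of the components (`famComp (S i) (A i) x`, `x ∈ A i`, where `S 0 = T`): exactly as in
`hasFamilies_of_core` in `TH/Families.lean`.
-/

set_option autoImplicit false

namespace Pool.Agent.Helper65.GN

open Pool.Agent.Helper65.TH
open Pool.Agent.Helper75.Apc (HasFamilies)

private theorem gnm_dist {G : Type*} [Group G] [MetricSpace G]
    (hinv : ∀ a b c : G, dist (a * b) (a * c) = dist b c) (x y : G) :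
    dist x y = dist 1 (x⁻¹ * y) := by
  have := hinv x⁻¹ x y
  rw [inv_mul_cancel] at this
  exact this.symm

theorem good_of_apc {G : Type*} [Group G] [MetricSpace G]
    (hinv : ∀ a b c : G, dist (a * b) (a * c) = dist b c)
    (hprop : ∀ r : ℝ, (Metric.closedBall (1 : G) r).Finite)
    (h : ∀ R : ℕ → ℝ, (∀ i, 0 < R i) → Monotone R → ∃ n, HasFamilies G R n) (T : Finset G) :
    Good T := by
  classical
  intro S
  set R : ℕ → ℝ := fun i => 1 + ∑ j ∈ Finset.range (i + 1), ∑ s ∈ S j ∪ T, dist 1 s with hR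
  have hnn : ∀ j, 0 ≤ ∑ s ∈ S j ∪ T, dist 1 s := fun j => Finset.sum_nonneg fun _ _ => dist_nonneg
  have hpos : ∀ i, 0 < R i := by
    intro i
    have : 0 ≤ ∑ j ∈ Finset.range (i + 1), ∑ s ∈ S j ∪ T, dist 1 s :=
      Finset.sum_nonneg fun j _ => hnn j
    simp only [hR]
    linarith
  have hmono : Monotone R := by
    intro i j hij
    simp only [hR]
    have : ∑ j ∈ Finset.range (i + 1), ∑ s ∈ S j ∪ T, dist 1 s ≤
        ∑ j ∈ Finset.range (j + 1), ∑ s ∈ S j ∪ T, dist 1 s := by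
      apply Finset.sum_le_sum_of_subset_of_nonneg
      · intro m hm
        rw [Finset.mem_range] at hm ⊢
        omega
      · intro m _ _
        exact hnn m
    linarith
  have hle : ∀ i, ∀ s ∈ S i ∪ T, dist 1 s ≤ R i := by
    intro i s hs
    have h1 : dist 1 s ≤ ∑ s ∈ S i ∪ T, dist 1 s :=
      Finset.single_le_sum (f := fun s => dist (1 : G) s) (fun _ _ => dist_nonneg) hs
    have h2 : ∑ s ∈ S i ∪ T, dist 1 s ≤ ∑ j ∈ Finset.range (i + 1), ∑ s ∈ S j ∪ T, dist 1 s :=
      Finset.single_le_sum (f := fun j => ∑ s ∈ S j ∪ T, dist 1 s) (fun j _ => hnn j)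
        (Finset.self_mem_range_succ i)
    simp only [hR]
    linarith
  obtain ⟨n, U, hD, hdisj, hcov⟩ := h R hpos hmono
  choose D hD using hD
  set E : Finset G := (hprop (∑ i, |D i|)).toFinset with hE
  set A : ℕ → Set G := fun i => {x | ∃ hi : i < n, ∃ B ∈ U ⟨i, hi⟩, x ∈ B} with hA
  have key : ∀ (i : ℕ) (P : Finset G), (∀ s ∈ P, dist 1 s ≤ R i) → Bdd (P : Set G) (A i) E := by
    intro i P hP x hx y hxy
    obtain ⟨hi, B, hB, hxB⟩ := hx
    have hyB : y ∈ B := by
      refine hxy.rec' (R := fun z => z ∈ B) hxB ?_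
      intro a b _ ha hs hb
      obtain ⟨_, B', hB', hbB'⟩ := hb
      by_cases hBB : B = B'
      · rw [hBB]
        exact hbB'
      · exfalso
        obtain ⟨δ, hδ, hδ'⟩ := hdisj ⟨i, hi⟩ B hB B' hB' hBB
        have h1 := hδ' a ha b hbB'
        rw [gnm_dist hinv] at h1
        have h2 := hP _ hs
        change R i < δ at hδ
        linarith
    rw [hE, Set.Finite.mem_toFinset, Metric.mem_closedBall, dist_comm, ← gnm_dist hinv]
    have h1 := hD ⟨i, hi⟩ B hB x hxB y hyB
    have h2 : |D ⟨i, hi⟩| ≤ ∑ i, |D i| :=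
      Finset.single_le_sum (f := fun i => |D i|) (fun _ _ => abs_nonneg _) (Finset.mem_univ _)
    have h3 := le_abs_self (D ⟨i, hi⟩)
    linarith
  refine ⟨n, A, E, ?_, ?_, ?_⟩
  · intro x
    obtain ⟨i, B, hB, hx⟩ := hcov x
    exact ⟨i, i.2.le, i.2, B, hB, hx⟩
  · exact key 0 T fun s hs => hle 0 s (Finset.mem_union_right _ hs)
  · intro i _ _
    exact key i (S i) fun s hs => hle i s (Finset.mem_union_left _ hs)

theorem apc_of_good {G : Type*} [Group G] [MetricSpace G]
    (hinv : ∀ a b c : G, dist (a * b) (a * c) = dist b c)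
    (hprop : ∀ r : ℝ, (Metric.closedBall (1 : G) r).Finite)
    (h : ∀ T : Finset G, Good T) (R : ℕ → ℝ) (hR : ∀ i, 0 < R i) (hm : Monotone R) :
    ∃ n, HasFamilies G R n := by
  classical
  have hsymm : ∀ ρ : ℝ, ∀ s ∈ ((hprop ρ).toFinset : Set G), s⁻¹ ∈ ((hprop ρ).toFinset : Set G) := by
    intro ρ s hs
    rw [Finset.mem_coe, Set.Finite.mem_toFinset, Metric.mem_closedBall] at hs ⊢
    have := hinv s s⁻¹ 1
    rw [mul_inv_cancel, mul_one] at this
    rw [← this, dist_comm]
    exact hs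
  obtain ⟨n, A, E, hcov, h0, hi⟩ := h (hprop (R 0 + 1)).toFinset
    (fun i => (hprop (R i + 1)).toFinset)
  have hbd : ∀ i, i < n + 1 → Bdd ((hprop (R i + 1)).toFinset : Set G) (A i) E := by
    intro i hin
    rcases Nat.eq_zero_or_pos i with h1 | h1
    · subst h1
      exact h0
    · exact hi i h1 (by omega)
  refine ⟨n + 1, fun i => {B | ∃ x ∈ A i,
    B = famComp ((hprop (R i + 1)).toFinset : Set G) (A i) x}, ?_, ?_, ?_⟩
  · intro i
    refine ⟨∑ g ∈ E, dist 1 g, ?_⟩
    rintro B ⟨z, hz, rfl⟩ x hx y hy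
    have hxA : x ∈ A i := famComp_subset hz hx
    have hmem := hbd i i.2 x hxA y (famComp_symm (hsymm _) hz hx hy)
    rw [gnm_dist hinv]
    exact Finset.single_le_sum (f := fun g => dist (1 : G) g) (fun _ _ => dist_nonneg) hmem
  · rintro i B ⟨z, hz, rfl⟩ B' ⟨z', hz', rfl⟩ hne
    refine ⟨R i + 1, by linarith, ?_⟩
    intro x hx y hy
    by_contra hlt
    push Not at hlt
    apply hne
    refine famComp_eq (hsymm _) hz hz' hx hy ?_
    rw [gnm_dist hinv, dist_comm] at hlt
    rw [Finset.mem_coe, Set.Finite.mem_toFinset, Metric.mem_closedBall]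
    exact hlt.le
  · intro x
    obtain ⟨j, hj, hx⟩ := hcov x
    exact ⟨⟨j, by omega⟩, famComp ((hprop (R j + 1)).toFinset : Set G) (A j) x,
      ⟨x, hx, rfl⟩, Chain.refl _ _ _⟩

end Pool.Agent.Helper65.GN
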