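import Pool.Agent.Helper65.GN.Normal

/-!
GN-09. Ascending series.

Proof. `Ascendant.le`: induction. `Sep.mono`: fewer `S` (and fewer `T`). `sep_ascendant`: induction over
`Ascendant H K`; `normal`: `sep_normal` (with `L ≤ H ≤ K`); `union`: given finite `T ⊆ L` and
`S ⊆ sSup S'`, by directedness (`Subgroup.mem_sSup_of_directedOn`, induction over the finite set) `S ⊆ K`
for some `K ∈ S'`, use `Sep K L n`.
-/

set_option autoImplicit false

namespace Pool.Agent.Helper65.GN

open Pool.Agent.Helper65.TH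

variable {G : Type*} [Group G]

theorem Ascendant.le {H K : Subgroup G} (h : Ascendant H K) : H ≤ K := by
  induction h with
  | refl => exact le_rfl
  | normal K K' _ hle _ ih => exact ih.trans hle
  | union S hne _ _ ih =>
    obtain ⟨K, hK⟩ := hne
    exact (ih K hK).trans (le_sSup hK)

/-- a finite subset of a directed union lies in a member -/
theorem exists_mem_of_directed (S : Set (Subgroup G)) (hne : S.Nonempty)
    (hdir : DirectedOn (· ≤ ·) S) (T : Finset G) (hT : ∀ s ∈ T, s ∈ sSup S) :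
    ∃ K ∈ S, ∀ s ∈ T, s ∈ K := by
  classical
  induction T using Finset.induction_on with
  | empty =>
    obtain ⟨K, hK⟩ := hne
    exact ⟨K, hK, fun s hs => absurd hs (Finset.notMem_empty s)⟩
  | insert a T _ ih =>
    obtain ⟨K₁, hK₁, h₁⟩ := ih (fun s hs => hT s (Finset.mem_insert_of_mem hs))
    obtain ⟨K₂, hK₂, h₂⟩ :=
      (Subgroup.mem_sSup_of_directedOn hne hdir).1 (hT a (Finset.mem_insert_self a T))
    obtain ⟨K, hK, h₁K, h₂K⟩ := hdir K₁ hK₁ K₂ hK₂
    refine ⟨K, hK, fun s hs => ?_⟩
    rcases Finset.mem_insert.1 hs with rfl | hs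
    · exact h₂K h₂
    · exact h₁K (h₁ s hs)

theorem Sep.mono {K K₀ L L₀ : Subgroup G} {n : ℕ} (h : Sep K L n) (hK : K₀ ≤ K) (hL : L₀ ≤ L) :
    Sep K₀ L₀ n :=
  fun T S hT hS => h T S (fun s hs => hL (hT s hs)) (fun s hs => hK (hS s hs))

theorem sep_ascendant {H L : Subgroup G} (hL : L ≤ H) {n : ℕ} (h : Sep H L n) {K : Subgroup G}
    (hK : Ascendant H K) : Sep K L n := by
  induction hK with
  | refl => exact h
  | normal K K' hK hle hn ih => exact sep_normal K K' L (hL.trans hK.le) hle hn ih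
  | union S hne hdir _ ih =>
    intro T F hT hF
    obtain ⟨K, hK, hFK⟩ := exists_mem_of_directed S hne hdir F hF
    exact ih K hK T F hT hFK

end Pool.Agent.Helper65.GN
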