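import Pool.Agent.Helper65.GN.Defs
import Pool.Agent.Helper75.Apc.Core

/-!
GN-11. Groups locally of polynomial growth.

Proof. Let `L = closure T₀`, `T₀` finite, and `T₁ = T₀ ∪ T₀⁻¹ ∪ {1}` (in `G`; `T₁ ⊆ H`). The elements of
`T₁` define a finite subset of `H` (cf. `poly_of_union` in `Helper75/Apc/Main.lean`), so
`(T₁ ^ k).card ≤ C * (k + 1) ^ d` for all `k` (pointwise powers of finsets of `G`). Take `n = d`. Given
finite `T ⊆ L`, `S ⊆ G`. Let `T' = T ∪ T⁻¹ ∪ {1}`; every element of `L` lies in some `T₁ ^ r`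
(`Subgroup.closure_induction`, or `Submonoid`; the sets `T₁ ^ r` increase with `r`), so
`T' ⊆ T₁ ^ r` for some `r`, and `(T' ^ k).card ≤ (T₁ ^ (r * k)).card ≤ C * (r * k + 1) ^ d ≤
(C * (r + 1) ^ d) * (k + 1) ^ d`. Let `S' = S ∪ S⁻¹ ∪ {1}`. Apply `core T' S'`: sets `A j`, `j ≤ d`, finite
`F`. Put `w x` = the least `j` with `x ∈ A j` (`Nat.find`). Then `{w = j} ⊆ A j`. Chains in the sense of
`TH.Chain` starting in the set give chains in the sense of `core` (`ReflTransGen` with both ends in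
the set): induction along the chain.
-/

set_option autoImplicit false

namespace Pool.Agent.Helper65.GN

open Pool.Agent.Helper65.TH
open Pool.Agent.Helper75.Apc (LocallyPolynomialGrowth)

open Pointwise Relation in
/-- growth of a finite set contained in a subgroup which is locally of polynomial growth -/
theorem basep_growth {G : Type*} [Group G] [DecidableEq G] (H : Subgroup G)
    (h : LocallyPolynomialGrowth H) (T : Finset G) (hT : ∀ t ∈ T, t ∈ H) :
    ∃ C d : ℕ, ∀ k : ℕ, (T ^ k).card ≤ C * (k + 1) ^ d := by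
  classical
  obtain ⟨C, d, h1⟩ := h (T.subtype (fun t => t ∈ H))
  refine ⟨C, d, fun k => ?_⟩
  have himg : (H.subtype : H →* G) '' ((T.subtype (fun t => t ∈ H) : Finset H) : Set H)
      = (T : Set G) := by
    ext t
    simp only [Set.mem_image, Finset.mem_coe, Finset.mem_subtype, Subgroup.coe_subtype,
      Subtype.exists, exists_and_left, exists_prop, exists_eq_right_right]
    constructor
    · rintro ⟨h2, h3⟩
      exact h2
    · intro h2
      exact ⟨h2, hT t h2⟩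
  have h2 : (T ^ k).card =
      (((T.subtype (fun t => t ∈ H) : Finset H) : Set H) ^ k).ncard := by
    rw [← Set.ncard_image_of_injective _ H.subtype_injective, Set.image_pow, himg,
      ← Finset.coe_pow, Set.ncard_coe_finset]
  rw [h2]
  exact h1 k

open Pointwise in
/-- a symmetric finite set containing `1` -/
theorem basep_sym {G : Type*} [Group G] [DecidableEq G] (T : Finset G) :
    (1 : G) ∈ T ∪ T⁻¹ ∪ {1} ∧ (∀ t ∈ T ∪ T⁻¹ ∪ {1}, t⁻¹ ∈ T ∪ T⁻¹ ∪ {1}) ∧
      T ⊆ T ∪ T⁻¹ ∪ {1} := by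
  refine ⟨by simp, ?_, ?_⟩
  · intro t ht
    simp only [Finset.mem_union, Finset.mem_inv', Finset.mem_singleton, inv_inv,
      inv_eq_one] at ht ⊢
    tauto
  · intro t ht
    simp only [Finset.mem_union]
    exact Or.inl (Or.inl ht)

open Pointwise in
/-- powers of a symmetric finite set exhaust the subgroup generated by it -/
theorem basep_mem {G : Type*} [Group G] [DecidableEq G] (T₀ : Finset G) (x : G)
    (hx : x ∈ Subgroup.closure (T₀ : Set G)) : ∃ r : ℕ, x ∈ (T₀ ∪ T₀⁻¹ ∪ {1}) ^ r := by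
  obtain ⟨h1, h2, h3⟩ := basep_sym T₀
  induction hx using Subgroup.closure_induction with
  | mem x hx => exact ⟨1, by rw [pow_one]; exact h3 hx⟩
  | one => exact ⟨0, by simp⟩
  | mul x y _ _ ihx ihy =>
    obtain ⟨r, hr⟩ := ihx
    obtain ⟨s, hs⟩ := ihy
    exact ⟨r + s, Pool.Agent.Helper75.Apc.mul_mem_pow rfl hr hs⟩
  | inv x _ ih =>
    obtain ⟨r, hr⟩ := ih
    exact ⟨r, Pool.Agent.Helper75.Apc.inv_mem_pow h2 r x hr⟩

open Pointwise in
/-- a finite subset of the subgroup is contained in a power -/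
theorem basep_subset {G : Type*} [Group G] [DecidableEq G] (T₀ T : Finset G)
    (hT : ∀ t ∈ T, t ∈ Subgroup.closure (T₀ : Set G)) :
    ∃ r : ℕ, T ⊆ (T₀ ∪ T₀⁻¹ ∪ {1}) ^ r := by
  obtain ⟨h1, h2, h3⟩ := basep_sym T₀
  induction T using Finset.induction_on with
  | empty => exact ⟨0, Finset.empty_subset _⟩
  | insert a T _ ih =>
    obtain ⟨r, hr⟩ := ih (fun t ht => hT t (Finset.mem_insert_of_mem ht))
    obtain ⟨s, hs⟩ := basep_mem T₀ a (hT a (Finset.mem_insert_self a T))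
    refine ⟨r + s, Finset.insert_subset ?_ ?_⟩
    · exact Pool.Agent.Helper75.Apc.pow_mono h1 (by omega) hs
    · exact hr.trans (Pool.Agent.Helper75.Apc.pow_mono h1 (by omega))

theorem sep_of_growth {G : Type*} [Group G] (H : Subgroup G) (h : LocallyPolynomialGrowth H)
    (L : Subgroup G) (hL : L ≤ H) (hfg : L.FG) : ∃ n : ℕ, Sep ⊤ L n := by
  classical
  open Pointwise Relation in
  obtain ⟨T₀, hT₀⟩ := hfg
  set T₁ : Finset G := T₀ ∪ T₀⁻¹ ∪ {1} with hT₁
  obtain ⟨h1, h2, h3⟩ := basep_sym T₀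
  have hT₀L : ∀ t ∈ T₀, t ∈ L := by
    intro t ht
    rw [← hT₀]
    exact Subgroup.subset_closure ht
  have hT₁H : ∀ t ∈ T₁, t ∈ H := by
    intro t ht
    rw [hT₁] at ht
    simp only [Finset.mem_union, Finset.mem_inv', Finset.mem_singleton] at ht
    rcases ht with (ht | ht) | ht
    · exact hL (hT₀L t ht)
    · exact hL (by simpa using L.inv_mem (hT₀L _ ht))
    · rw [ht]
      exact H.one_mem
  obtain ⟨C, d, hCd⟩ := basep_growth H h T₁ hT₁H
  refine ⟨d, fun T S hT _ => ?_⟩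
  obtain ⟨a1, a2, a3⟩ := basep_sym T
  obtain ⟨b1, b2, b3⟩ := basep_sym S
  have hT'L : ∀ t ∈ T ∪ T⁻¹ ∪ {1}, t ∈ Subgroup.closure (T₀ : Set G) := by
    intro t ht
    rw [hT₀]
    simp only [Finset.mem_union, Finset.mem_inv', Finset.mem_singleton] at ht
    rcases ht with (ht | ht) | ht
    · exact hT t ht
    · simpa using L.inv_mem (hT _ ht)
    · rw [ht]
      exact L.one_mem
  obtain ⟨r, hr⟩ := basep_subset T₀ _ hT'L
  have hpoly : ∀ k, ((T ∪ T⁻¹ ∪ {1}) ^ k).card ≤ (C * (r + 1) ^ d) * (k + 1) ^ d := by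
    intro k
    have e1 : (T ∪ T⁻¹ ∪ {1}) ^ k ⊆ T₁ ^ (r * k) := by
      rw [pow_mul]
      exact Finset.pow_subset_pow_left hr
    calc ((T ∪ T⁻¹ ∪ {1}) ^ k).card ≤ (T₁ ^ (r * k)).card := Finset.card_le_card e1
      _ ≤ C * (r * k + 1) ^ d := hCd _
      _ ≤ C * ((r + 1) * (k + 1)) ^ d := by
        refine Nat.mul_le_mul le_rfl (Nat.pow_le_pow_left ?_ d)
        nlinarith
      _ = (C * (r + 1) ^ d) * (k + 1) ^ d := by rw [mul_pow]; ring
  obtain ⟨A, F, c1, c2, c3⟩ := Pool.Agent.Helper75.Apc.core _ _ a1 b1 a2 b2 _ d hpoly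
  have hex : ∀ x, ∃ j, x ∈ A j := fun x => by
    obtain ⟨j, _, hj⟩ := c1 x
    exact ⟨j, hj⟩
  let w : G → ℕ := fun x => Nat.find (hex x)
  have hwA : ∀ x, x ∈ A (w x) := fun x => Nat.find_spec (hex x)
  have hwd : ∀ x, w x ≤ d := fun x => by
    obtain ⟨j, hjd, hj⟩ := c1 x
    exact (Nat.find_min' (hex x) hj).trans hjd
  have key : ∀ (j : ℕ) (P Q : Finset G), P ⊆ Q → ∀ x ∈ {x | w x = j}, ∀ y,
      Chain (P : Set G) (fun b => b ∈ {x | w x = j}) x y →
        Relation.ReflTransGen (fun a b => a ∈ A j ∧ b ∈ A j ∧ a⁻¹ * b ∈ Q) x y := by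
    intro j P Q hPQ x hx y hxy
    have hA : ∀ z ∈ {x | w x = j}, z ∈ A j := by
      intro z hz
      have hz' : w z = j := hz
      rw [← hz']
      exact hwA z
    have hxy' : Relation.ReflTransGen
        (fun a b => a⁻¹ * b ∈ (P : Set G) ∧ b ∈ {x | w x = j}) x y := hxy
    have hboth : Relation.ReflTransGen (fun a b => a ∈ A j ∧ b ∈ A j ∧ a⁻¹ * b ∈ Q) x y ∧
        y ∈ {x | w x = j} := by
      clear hxy
      induction hxy' with
      | refl => exact ⟨Relation.ReflTransGen.refl, hx⟩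
      | tail _ hstep ih =>
        exact ⟨ih.1.tail ⟨hA _ ih.2, hA _ hstep.2, hPQ hstep.1⟩, hstep.2⟩
    exact hboth.1
  refine ⟨w, F, hwd, ?_, ?_⟩
  · intro x hx y hxy
    have hx' : w x = 0 := hx
    have hxA : x ∈ A 0 := by
      have := hwA x
      rwa [hx'] at this
    exact c2 x y hxA (key 0 T _ a3 x hx y hxy)
  · intro i hi x hx y hxy
    have hx' : w x = i := hx
    have hxA : x ∈ A i := by
      have := hwA x
      rwa [hx'] at this
    exact c3 i hi (hx' ▸ hwd x) x y hxA (key i S _ b3 x hx y hxy)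

end Pool.Agent.Helper65.GN
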