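import Pool.Agent.Helper65.GN.GoodExt
import Pool.Agent.Helper65.GN.Asc
import Pool.Agent.Helper65.GN.BaseA
import Pool.Agent.Helper65.GN.BaseP

/-!
GN-13. Groups with an ascending normal series with nice factors.

Proof. `good_of_sep`: let `S` be a sequence; apply `Sep` to `T` and `⋃ i ≤ n, S i` (a finite set):
`w`, `E`; `A i = {w = i}`. `Nice.sep`: let `H` be from `Nice`, `L = closure T ≤ H`; if `H` has finite asymptotic
dimension: `sep_of_asdim` gives `Sep H L t`, `sep_ascendant` gives `Sep K L t`, and
`sep_normal K ⊤ L` gives `Sep ⊤ L t`. If `H` is locally of polynomial growth: `sep_of_growth`.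
`Reach.normal`: induction; the union of a directed set of normal subgroups is normal
(`Subgroup.mem_sSup_of_directedOn`). `Reach.good`: induction. `bot`: `T ⊆ ⊥`, take `n = 0`,
`A 0 = univ`, `E = {1}` (the chains are constant: `Chain.mem_subgroup`). `step`: let `T ⊆ K`, `π` the
projection to `G ⧸ N`; `K.map π` is normal in `G ⧸ N` (`π` is surjective) and contains `π T`, so
`π T` is `Good` by `Nice.sep` and `good_of_sep`; `good_ext`. `union`: `exists_mem_of_directed`.
-/

set_option autoImplicit false

namespace Pool.Agent.Helper65.GN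

open Pool.Agent.Helper65.TH

variable {G : Type*} [Group G]

theorem good_of_sep {L : Subgroup G} {n : ℕ} (h : Sep ⊤ L n) (T : Finset G)
    (hT : ∀ s ∈ T, s ∈ L) : Good T := by
  classical
  intro S
  obtain ⟨w, E, hw, h0, h1⟩ := h T ((Finset.range (n + 1)).biUnion S) hT
    (fun s _ => Subgroup.mem_top s)
  refine ⟨n, fun i => {x | w x = i}, E, fun x => ⟨w x, hw x, rfl⟩, h0, ?_⟩
  intro i hi hin x hx y hy
  refine h1 i hi x hx y (hy.mono ?_ fun _ hb => hb)
  intro s hs
  rw [Finset.mem_coe, Finset.mem_biUnion]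
  exact ⟨i, Finset.mem_range.2 (by omega), hs⟩

theorem Nice.sep {K : Subgroup G} (hK : Nice K) (hn : K.Normal) (T : Finset G)
    (hT : ∀ s ∈ T, s ∈ K) : ∃ n : ℕ, Sep ⊤ (Subgroup.closure (T : Set G)) n := by
  obtain ⟨H, hTH, hA, hH⟩ := hK T hT
  have hle : Subgroup.closure (T : Set G) ≤ H := by
    rw [Subgroup.closure_le]
    exact fun s hs => hTH s hs
  rcases hH with ⟨t, ht⟩ | hp
  · have h1 := sep_of_asdim H ht (Subgroup.closure (T : Set G))
    have h2 := sep_ascendant hle h1 hA
    exact ⟨t, sep_normal K ⊤ _ (hle.trans hA.le) le_top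
      (fun g _ k hk => hn.conj_mem k hk g) h2⟩
  · exact sep_of_growth H hp _ hle ⟨T, rfl⟩

theorem Reach.normal {N : Subgroup G} (h : Reach N) : N.Normal := by
  induction h with
  | bot => infer_instance
  | step N K hN hle h ih => assumption
  | union S hne hdir h ih =>
    refine ⟨fun x hx g => ?_⟩
    rw [Subgroup.mem_sSup_of_directedOn hne hdir] at hx ⊢
    obtain ⟨K, hK, hxK⟩ := hx
    exact ⟨K, hK, (ih K hK).conj_mem x hxK g⟩

theorem Reach.good {N : Subgroup G} (h : Reach N) (T : Finset G) (hT : ∀ s ∈ T, s ∈ N) :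
    Good T := by
  classical
  induction h generalizing T with
  | bot =>
    intro S
    refine ⟨0, fun _ => Set.univ, {1}, fun x => ⟨0, le_rfl, Set.mem_univ x⟩, ?_, ?_⟩
    · intro x _ y hy
      have h1 := hy.mem_subgroup (⊥ : Subgroup G) (fun s hs => hT s hs)
      rw [Subgroup.mem_bot] at h1
      rw [h1]
      exact Finset.mem_singleton_self 1
    · intro i hi hi0
      omega
  | step N K hN hle h ih =>
    have hnor : (K.map (QuotientGroup.mk' N)).Normal :=
      Subgroup.Normal.map inferInstance _ (QuotientGroup.mk'_surjective N)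
    have hT' : ∀ s ∈ T.image (QuotientGroup.mk' N), s ∈ K.map (QuotientGroup.mk' N) := by
      intro s hs
      rw [Finset.mem_image] at hs
      obtain ⟨x, hx, rfl⟩ := hs
      exact Subgroup.mem_map_of_mem _ (hT x hx)
    obtain ⟨n, hsep⟩ := h.sep hnor (T.image (QuotientGroup.mk' N)) hT'
    refine good_ext (QuotientGroup.mk' N) T (good_of_sep hsep _ fun s hs =>
      Subgroup.subset_closure hs) ?_
    intro T' hT''
    apply ih
    intro s hs
    have h1 := hT'' s hs
    rwa [QuotientGroup.mk'_apply, QuotientGroup.eq_one_iff] at h1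
  | union S hne hdir h ih =>
    obtain ⟨K, hK, hTK⟩ := exists_mem_of_directed S hne hdir T hT
    exact ih K hK T hTK

end Pool.Agent.Helper65.GN
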