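import Mathlib

/-!
GN-07. The codimension functions (general position).

Notation: `a k y = B.sup (fun b => ℓ k (y * b))`. The functions `ℓ k` are constructed one after the
other, for `k = 0, 1, ..., m - 1` (strong recursion on `k`). For `z` with `κ z ≠ k` put `ℓ k z = 0`. For
`κ z = k` let `Cond z v` be: for all `b ∈ B` with `k ≤ κ (z * b)` and all `A : Fin m → Fin (n + 2)` with
`A k' = a k' (z * b)` for all `k' < k` and `v ≤ A k`: `(∑ k' < k, a k' (z * b)) + v ≤ W (κ (z * b)) A (z * b)`.
Let `ℓ k z` be the least `v` such that `Cond z (v + 1)` is false. It exists and is at most `n`: for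
`v = n` take `b = 1`, `A k' = a k' z` for `k' < k` (at most `n`, as the former `ℓ k'` are at most
`n`), `A k' = n + 1` for `k' ≥ k`; then `W .. ≤ n < n + 1`.
Invariant `Inv k`: for all `y` with `k ≤ κ y` and all `A` with `A k' = a k' y` for `k' < k`:
`(∑ k' < k, a k' y) ≤ W (κ y) A y`. `Inv 0` is clear. `Inv k → Inv (k + 1)`: let `k + 1 ≤ κ y`, `A k' = a k' y` for
`k' ≤ k`. If `a k y = 0` use `Inv k`. Otherwise `a k y = ℓ k z` with `z = y * b`, `b ∈ B`
(`Finset.exists_mem_eq_sup`), `v = ℓ k z ≥ 1`, so `κ z = k` and `Cond z v` holds (`v - 1` is smaller than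
the least number with `Cond z (v' + 1)` false). Apply it to `b⁻¹ ∈ B`, `z * b⁻¹ = y`, `k ≤ κ y`, `A`,
`v = a k y = A k`.
Second property: `z` with `κ z = k`, `v = ℓ k z`. If `v = 0` use `Inv k` with `y = z`, `A k' = a k' z` for
`k' < k` (and `0` otherwise) and `W ≤ n`. If `v ≥ 1` use `Cond z v` with `b = 1`, `A k' = a k' z` for
`k' < k` and `A k' = v` for `k' ≥ k`.
Third property: `κ z = k`, `v = ℓ k z`: as `Cond z (v + 1)` is false there are `b`, `A` with `k ≤ κ (z * b)`,
`A k' = a k' (z * b)` for `k' < k`, `v + 1 ≤ A k` and `W (κ (z * b)) A (z * b) < (∑ k' < k, a k' (z * b)) + v + 1`.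
If `v ≥ 1` then `Cond z v` with the same `b`, `A` gives `≥ (∑ ..) + v`; if `v = 0` then `Inv k` for
`y = z * b` gives it. So equality, and `∑ k' < k, a k' (z * b) = ∑ k' < k, A k'`.
(To formalise: it may be convenient to construct functions `ℓ : ℕ → G → ℕ` by well-founded
recursion, or to prove by induction on `k` the existence of `ℓ` with the right properties for all
indices smaller than `k`, changing only the value at `k`.)
-/

set_option autoImplicit false

namespace Pool.Agent.Helper65.GN

theorem exists_codim {G : Type*} [Group G] (B : Finset G) (h1 : (1 : G) ∈ B)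
    (hinv : ∀ b ∈ B, b⁻¹ ∈ B) {m n : ℕ} (κ : G → Fin m)
    (W : Fin m → (Fin m → Fin (n + 2)) → G → ℕ) (hW : ∀ k A x, W k A x ≤ n) :
    ∃ ℓ : Fin m → G → ℕ, (∀ k z, κ z ≠ k → ℓ k z = 0) ∧
      (∀ z, (∑ k' ∈ Finset.univ.filter (fun k' => k' < κ z), B.sup (fun b => ℓ k' (z * b))) +
        ℓ (κ z) z ≤ n) ∧
      ∀ z, ∃ b ∈ B, ∃ A : Fin m → Fin (n + 2), W (κ (z * b)) A (z * b) =
        (∑ k' ∈ Finset.univ.filter (fun k' => k' < κ z), (A k' : ℕ)) + ℓ (κ z) z := by
  classical
  have main : ∀ k : ℕ, k ≤ m → ∃ ℓ : Fin m → G → ℕ,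
      (∀ j : Fin m, j.val < k → ∀ z, κ z ≠ j → ℓ j z = 0) ∧
      (∀ z, (κ z).val < k →
        (∑ k' ∈ Finset.univ.filter (fun k' => k' < κ z), B.sup (fun b => ℓ k' (z * b))) +
          ℓ (κ z) z ≤ n) ∧
      (∀ z, (κ z).val < k → ∃ b ∈ B, ∃ A : Fin m → Fin (n + 2), W (κ (z * b)) A (z * b) =
        (∑ k' ∈ Finset.univ.filter (fun k' => k' < κ z), (A k' : ℕ)) + ℓ (κ z) z) ∧
      (∀ y, k ≤ (κ y).val → ∀ A : Fin m → Fin (n + 2),
        (∀ k' : Fin m, k'.val < k → (A k' : ℕ) = B.sup (fun b => ℓ k' (y * b))) →
        ∑ k' ∈ Finset.univ.filter (fun k' : Fin m => k'.val < k),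
          B.sup (fun b => ℓ k' (y * b)) ≤ W (κ y) A y) := by
    intro k
    induction k with
    | zero =>
      intro _
      refine ⟨fun _ _ => 0, fun j hj => absurd hj (Nat.not_lt_zero _),
        fun z hz => absurd hz (Nat.not_lt_zero _), fun z hz => absurd hz (Nat.not_lt_zero _),
        fun y _ A _ => ?_⟩
      rw [Finset.filter_false_of_mem (fun x _ => Nat.not_lt_zero _), Finset.sum_empty]
      exact Nat.zero_le _
    | succ k ih =>
      intro hk
      obtain ⟨ℓ, h0, h2, h3, hInv⟩ := ih (by omega)
      let kk : Fin m := ⟨k, hk⟩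
      have hℓ : ∀ k' : Fin m, k'.val < k → ∀ z, ℓ k' z ≤ n := by
        intro k' hk' z
        by_cases hz : κ z = k'
        · have h4 := h2 z (by rw [hz]; exact hk')
          rw [hz] at h4
          omega
        · rw [h0 k' hk' z hz]
          exact Nat.zero_le _
      have hbd : ∀ k' : Fin m, k'.val < k → ∀ y, B.sup (fun b => ℓ k' (y * b)) ≤ n :=
        fun k' hk' y => Finset.sup_le fun b _ => hℓ k' hk' _
      -- a choice of `A`
      have hA : ∀ (y : G) (v : ℕ), v ≤ n + 1 → ∃ A : Fin m → Fin (n + 2),
          (∀ k' : Fin m, k'.val < k → (A k' : ℕ) = B.sup (fun b => ℓ k' (y * b))) ∧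
          ∀ k' : Fin m, ¬ k'.val < k → (A k' : ℕ) = v := by
        intro y v hv
        refine ⟨fun k' => if h : k'.val < k then ⟨B.sup (fun b => ℓ k' (y * b)), by
          have := hbd k' h y; omega⟩ else ⟨v, by omega⟩, fun k' hk' => ?_, fun k' hk' => ?_⟩
        · simp only [dif_pos hk']
        · simp only [dif_neg hk']
      let Cond : G → ℕ → Prop := fun z v => ∀ b ∈ B, k ≤ (κ (z * b)).val →
        ∀ A : Fin m → Fin (n + 2),
          (∀ k' : Fin m, k'.val < k → (A k' : ℕ) = B.sup (fun c => ℓ k' (z * b * c))) →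
          v ≤ (A kk : ℕ) →
          (∑ k' ∈ Finset.univ.filter (fun k' : Fin m => k'.val < k),
            B.sup (fun c => ℓ k' (z * b * c))) + v ≤ W (κ (z * b)) A (z * b)
      have hexn : ∀ z, κ z = kk → ¬ Cond z (n + 1) := by
        intro z hz hC
        obtain ⟨A, hA1, hA2⟩ := hA (z * 1) (n + 1) le_rfl
        have h4 := hC 1 h1 (by rw [mul_one, hz]) A hA1 (by rw [hA2 kk (lt_irrefl _)])
        have h5 := hW (κ (z * 1)) A (z * 1)
        omega
      have hex : ∀ z, κ z = kk → ∃ v, ¬ Cond z (v + 1) := fun z hz => ⟨n, hexn z hz⟩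
      have hex' : ∀ z, ∃ v, κ z = kk → (¬ Cond z (v + 1) ∧ (1 ≤ v → Cond z v) ∧ v ≤ n) := by
        intro z
        by_cases hz : κ z = kk
        · refine ⟨Nat.find (hex z hz), fun _ => ⟨Nat.find_spec (hex z hz), fun hv => ?_,
            Nat.find_min' (hex z hz) (hexn z hz)⟩⟩
          have h4 := Nat.find_min (hex z hz) (m := Nat.find (hex z hz) - 1) (by omega)
          rw [not_not] at h4
          have h5 : Nat.find (hex z hz) - 1 + 1 = Nat.find (hex z hz) := by omega
          rwa [h5] at h4
        · exact ⟨0, fun h => absurd h hz⟩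
      choose lf hlf using hex'
      let ℓ' : Fin m → G → ℕ := Function.update ℓ kk (fun z => if κ z = kk then lf z else 0)
      have hne : ∀ k' : Fin m, k' ≠ kk → ℓ' k' = ℓ k' := fun k' hk' =>
        Function.update_of_ne hk' _ _
      have hlt : ∀ k' : Fin m, k'.val < k → ℓ' k' = ℓ k' := fun k' hk' =>
        hne k' (fun h => by rw [h] at hk'; exact lt_irrefl _ hk')
      have heq : ∀ z, ℓ' kk z = if κ z = kk then lf z else 0 := by
        intro z
        have : ℓ' kk = (fun z => if κ z = kk then lf z else 0) := Function.update_self _ _ _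
        rw [this]
      -- sums
      have hsum : ∀ y, ∑ k' ∈ Finset.univ.filter (fun k' : Fin m => k'.val < k),
          B.sup (fun b => ℓ' k' (y * b)) =
          ∑ k' ∈ Finset.univ.filter (fun k' : Fin m => k'.val < k),
            B.sup (fun b => ℓ k' (y * b)) := by
        intro y
        refine Finset.sum_congr rfl fun k' hk' => ?_
        rw [hlt k' (Finset.mem_filter.1 hk').2]
      have hfil : Finset.univ.filter (fun k' : Fin m => k' < kk) =
          Finset.univ.filter (fun k' : Fin m => k'.val < k) := rfl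
      have hfil' : Finset.univ.filter (fun k' : Fin m => k'.val < k + 1) =
          insert kk (Finset.univ.filter (fun k' : Fin m => k'.val < k)) := by
        ext k'
        simp only [Finset.mem_filter, Finset.mem_univ, true_and, Finset.mem_insert]
        constructor
        · intro h
          by_cases h' : k'.val < k
          · exact Or.inr h'
          · exact Or.inl (Fin.ext (by change k'.val = k; omega))
        · rintro (h | h)
          · rw [h]; exact Nat.lt_succ_self k
          · omega
      have hnot : kk ∉ Finset.univ.filter (fun k' : Fin m => k'.val < k) := by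
        simp only [Finset.mem_filter, Finset.mem_univ, true_and]
        exact lt_irrefl _
      -- the second property for `κ z = kk`
      have hcase : ∀ z, (κ z).val < k + 1 → κ z = kk ∨ (κ z).val < k := by
        intro z hz
        by_cases h' : (κ z).val < k
        · exact Or.inr h'
        · exact Or.inl (Fin.ext (by change (κ z).val = k; omega))
      refine ⟨ℓ', fun j hj z hz => ?_, fun z hz => ?_, fun z hz => ?_, fun y hy A hAy => ?_⟩
      · by_cases hjk : j.val < k
        · rw [hlt j hjk]
          exact h0 j hjk z hz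
        · have hj' : j = kk := Fin.ext (by change j.val = k; omega)
          rw [hj', heq, if_neg]
          rw [← hj']
          exact hz
      · rcases hcase z hz with hz' | hz'
        · rw [hz', hfil, hsum, heq, if_pos hz']
          obtain ⟨hn, hc, hlfn⟩ := hlf z hz'
          by_cases hv : 1 ≤ lf z
          · obtain ⟨A', hA1', hA2'⟩ := hA (z * 1) (lf z) (by omega)
            have h4 := hc hv 1 h1 (by rw [mul_one, hz']) A' hA1' (by rw [hA2' kk (lt_irrefl _)])
            have h5 := hW (κ (z * 1)) A' (z * 1)
            simp only [mul_one] at h4 h5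
            omega
          · obtain ⟨A, hA1, -⟩ := hA z 0 (by omega)
            have h4 := hInv z (by rw [hz']) A hA1
            have h5 := hW (κ z) A z
            omega
        · have h4 := h2 z hz'
          rw [hlt (κ z) hz']
          have h5 : ∑ k' ∈ Finset.univ.filter (fun k' => k' < κ z),
              B.sup (fun b => ℓ' k' (z * b)) =
              ∑ k' ∈ Finset.univ.filter (fun k' => k' < κ z), B.sup (fun b => ℓ k' (z * b)) := by
            refine Finset.sum_congr rfl fun k' hk' => ?_
            have h6 : k' < κ z := (Finset.mem_filter.1 hk').2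
            have h7 : k'.val < (κ z).val := h6
            rw [hlt k' (by omega)]
          rw [h5]
          exact h4
      · rcases hcase z hz with hz' | hz'
        · obtain ⟨hn, hc, -⟩ := hlf z hz'
          have hn' := hn
          simp only [Cond] at hn'
          push Not at hn'
          obtain ⟨b, hb, hkb, A, hA1, hA2, hA3⟩ := hn'
          refine ⟨b, hb, A, ?_⟩
          rw [hz', hfil, heq, if_pos hz']
          have h4 : ∑ k' ∈ Finset.univ.filter (fun k' : Fin m => k'.val < k), (A k' : ℕ) =
              ∑ k' ∈ Finset.univ.filter (fun k' : Fin m => k'.val < k),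
                B.sup (fun c => ℓ k' (z * b * c)) :=
            Finset.sum_congr rfl fun k' hk' => hA1 k' (Finset.mem_filter.1 hk').2
          rw [h4]
          by_cases hv : 1 ≤ lf z
          · have h5 := hc hv b hb hkb A hA1 (by omega)
            omega
          · have h5 := hInv (z * b) hkb A hA1
            omega
        · rw [hlt (κ z) hz']
          exact h3 z hz'
      · -- the invariant
        rw [hfil', Finset.sum_insert hnot, hsum]
        have hA1 : ∀ k' : Fin m, k'.val < k → (A k' : ℕ) = B.sup (fun b => ℓ k' (y * b)) := by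
          intro k' hk'
          rw [hAy k' (by omega), hlt k' hk']
        have hAk : (A kk : ℕ) = B.sup (fun b => ℓ' kk (y * b)) := hAy kk (Nat.lt_succ_self k)
        obtain ⟨b, hb, hbs⟩ := Finset.exists_mem_eq_sup B ⟨1, h1⟩ (fun b => ℓ' kk (y * b))
        by_cases hv : B.sup (fun b => ℓ' kk (y * b)) = 0
        · rw [hv, zero_add]
          exact hInv y (by omega) A hA1
        · rw [hbs] at hv hAk ⊢
          rw [heq] at hv hAk ⊢
          by_cases hz : κ (y * b) = kk
          · rw [if_pos hz] at hv hAk ⊢
            obtain ⟨-, hc, -⟩ := hlf (y * b) hz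
            have h4 := hc (by omega) b⁻¹ (hinv b hb)
            rw [mul_inv_cancel_right] at h4
            have h5 := h4 (by omega) A hA1 (by omega)
            omega
          · rw [if_neg hz] at hv
            exact absurd rfl hv
  obtain ⟨ℓ, h0, h2, h3, -⟩ := main m le_rfl
  exact ⟨ℓ, fun k z hz => h0 k k.isLt z hz, fun z => h2 z (κ z).isLt, fun z => h3 z (κ z).isLt⟩

end Pool.Agent.Helper65.GN
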