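import Pool.Agent.Helper65.GN.Defs

/-!
GN-01. Bounded chains: monotonicity and the saturated union.

Proof. `Bdd.mono`: chains in a smaller set with fewer steps are chains (`Chain.mono`). `bdd_empty`: no
starting point. `bdd_union`: let `x ∈ X₀ ∪ X₁` and let a chain in `X₀ ∪ X₁` with steps in `F` go from
`x` to `y`. Invariant (`Chain.rec'`) for the points `z` of the chain:
`R z := (x ∈ X₀ ∧ Chain F X₀ x z) ∨ ∃ u v, x⁻¹ * u ∈ U ∧ u ∈ X₁ ∧ Chain F₁ X₁ u v ∧ (z = v ∨ ∃ a, v⁻¹ * a ∈ F ∧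
a ∈ X₀ ∧ Chain F X₀ a z)` with `U = {1} ∪ E₀ * F`. Start: if `x ∈ X₁` take `u = v = x`, otherwise the first
alternative. Step from `z` to `z'`, `z⁻¹ * z' ∈ F`. If `z' ∈ X₁`: in the first alternative
`x⁻¹ * z' = (x⁻¹ * z) * (z⁻¹ * z') ∈ E₀ * F` (by `h₀`), take `u = v = z'`; in the second alternative with
`z = v` extend the chain by the step `z⁻¹ * z' ∈ F ⊆ F₁`; with `a`: `v⁻¹ * z' = (v⁻¹ * a) * (a⁻¹ * z) *
(z⁻¹ * z')` where `a⁻¹ * z ∈ E₀` by `h₀` and `a⁻¹ * z ∈ C` (`Chain.mem_subgroup`), so this is a step in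
`F₁`. If `z' ∈ X₀`: extend the chain in `X₀`, or put `a = z'`. At the end: `x⁻¹ * y ∈ E₀`, or
`x⁻¹ * y = (x⁻¹ * u) * (u⁻¹ * v) * (v⁻¹ * y)` with `u⁻¹ * v ∈ E₁` (by `h₁`) and `v⁻¹ * y ∈ {1} ∪ F * E₀`.
-/

set_option autoImplicit false

namespace Pool.Agent.Helper65.GN

open Pool.Agent.Helper65.TH

variable {G : Type*} [Group G]

theorem Bdd.mono {F F' A A' : Set G} {E E' : Finset G} (h : Bdd F A E) (hF : F' ⊆ F) (hA : A' ⊆ A)
    (hE : E ⊆ E') : Bdd F' A' E' := by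
  intro x hx y hxy
  exact hE (h x (hA hx) y (hxy.mono hF (fun b hb => hA hb)))

theorem bdd_empty (F : Set G) (E : Finset G) : Bdd F ∅ E := by
  intro x hx
  exact absurd hx (Set.notMem_empty x)

open Classical in
/-- the bound in the union lemma -/
noncomputable def suE (F E₀ E₁ : Finset G) : Finset G :=
  E₀ ∪ Finset.image₂ (fun a b => a * b)
    (Finset.image₂ (fun a b => a * b) (insert 1 (Finset.image₂ (fun a b => a * b) E₀ F)) E₁)
    (insert 1 (Finset.image₂ (fun a b => a * b) F E₀))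

theorem bdd_union (C : Subgroup G) (F : Finset G) (hF : ∀ s ∈ F, s ∈ C) (X₀ X₁ : Set G)
    (E₀ F₁ E₁ : Finset G) (h₀ : Bdd (F : Set G) X₀ E₀) (h₁ : Bdd (F₁ : Set G) X₁ E₁) (hFF : F ⊆ F₁)
    (hF₁ : ∀ f ∈ F, ∀ e ∈ E₀, e ∈ C → ∀ f' ∈ F, f * e * f' ∈ F₁) :
    Bdd (F : Set G) (X₀ ∪ X₁) (suE F E₀ E₁) := by
  classical
  intro x hx y hxy
  have key : (x ∈ X₀ ∧ Chain (F : Set G) (fun b => b ∈ X₀) x y) ∨
      ∃ u v, x⁻¹ * u ∈ insert (1 : G) (Finset.image₂ (fun a b => a * b) E₀ F) ∧ u ∈ X₁ ∧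
        Chain (F₁ : Set G) (fun b => b ∈ X₁) u v ∧
        (y = v ∨ ∃ a, v⁻¹ * a ∈ F ∧ a ∈ X₀ ∧ Chain (F : Set G) (fun b => b ∈ X₀) a y) := by
    refine hxy.rec' (R := fun z => (x ∈ X₀ ∧ Chain (F : Set G) (fun b => b ∈ X₀) x z) ∨
      ∃ u v, x⁻¹ * u ∈ insert (1 : G) (Finset.image₂ (fun a b => a * b) E₀ F) ∧ u ∈ X₁ ∧
        Chain (F₁ : Set G) (fun b => b ∈ X₁) u v ∧
        (z = v ∨ ∃ a, v⁻¹ * a ∈ F ∧ a ∈ X₀ ∧ Chain (F : Set G) (fun b => b ∈ X₀) a z)) ?_ ?_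
    · rcases hx with hx | hx
      · exact Or.inl ⟨hx, Chain.refl _ _ _⟩
      · exact Or.inr ⟨x, x, by simp, hx, Chain.refl _ _ _, Or.inl rfl⟩
    · intro z z' _ hz hs hz'
      rcases hz' with hz' | hz'
      · -- z' ∈ X₀
        rcases hz with ⟨hx0, hch⟩ | ⟨u, v, hu, huX, huv, hz⟩
        · exact Or.inl ⟨hx0, hch.step hs hz'⟩
        · refine Or.inr ⟨u, v, hu, huX, huv, Or.inr ?_⟩
          rcases hz with rfl | ⟨a, ha, haX, haz⟩
          · exact ⟨z', by simpa using hs, hz', Chain.refl _ _ _⟩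
          · exact ⟨a, ha, haX, haz.step hs hz'⟩
      · -- z' ∈ X₁
        rcases hz with ⟨hx0, hch⟩ | ⟨u, v, hu, huX, huv, hz⟩
        · refine Or.inr ⟨z', z', ?_, hz', Chain.refl _ _ _, Or.inl rfl⟩
          refine Finset.mem_insert_of_mem (Finset.mem_image₂.mpr
            ⟨x⁻¹ * z, h₀ x hx0 z hch, z⁻¹ * z', by simpa using hs, ?_⟩)
          group
        · refine Or.inr ⟨u, z', hu, huX, ?_, Or.inl rfl⟩
          rcases hz with rfl | ⟨a, ha, haX, haz⟩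
          · exact huv.step (by
              have : z⁻¹ * z' ∈ F := by simpa using hs
              exact_mod_cast hFF this) hz'
          · refine huv.step ?_ hz'
            have h2 := hF₁ (v⁻¹ * a) ha (a⁻¹ * z) (h₀ a haX z haz)
              (haz.mem_subgroup C (fun s hs => hF s (by simpa using hs))) (z⁻¹ * z')
              (by simpa using hs)
            have h3 : v⁻¹ * a * (a⁻¹ * z) * (z⁻¹ * z') = v⁻¹ * z' := by group
            rw [h3] at h2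
            exact_mod_cast h2
  rcases key with ⟨hx0, hch⟩ | ⟨u, v, hu, huX, huv, hz⟩
  · exact Finset.mem_union_left _ (h₀ x hx0 y hch)
  · refine Finset.mem_union_right _ (Finset.mem_image₂.mpr ⟨(x⁻¹ * u) * (u⁻¹ * v),
      Finset.mem_image₂.mpr ⟨x⁻¹ * u, hu, u⁻¹ * v, h₁ u huX v huv, rfl⟩, v⁻¹ * y, ?_, by group⟩)
    rcases hz with rfl | ⟨a, ha, haX, haz⟩
    · simp
    · refine Finset.mem_insert_of_mem (Finset.mem_image₂.mpr
        ⟨v⁻¹ * a, ha, a⁻¹ * y, h₀ a haX y haz, ?_⟩)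
      group

end Pool.Agent.Helper65.GN
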