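import Pool.Agent.Helper65.GN.Defs

/-!
GN-04. Colouring the cosets.

Proof. First for one element `c ∈ K'`, `c ∉ K`: there is `f : G → Fin 3` with `f (x * k) = f x` for
`k ∈ K` and `f (x * c) ≠ f x` for all `x`. Indeed right multiplication by `c` induces a permutation
`σ` of the set `X = G ⧸ K` of left cosets (`x K ↦ x c K`, well defined as `c⁻¹ * k * c ∈ K` for `k ∈ K`;
the inverse is induced by `c⁻¹`), without fixed points. Every permutation `σ` without fixed points
of a set `X` has a map `f : X → Fin 3` with `f (σ x) ≠ f x`: choose a representative `r` of every orbit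
(`SameCycle`, or the quotient by `Equiv.Perm.SameCycle.setoid`). If the orbit of `r` is
infinite every element is `σ ^ i r` for a unique integer `i`, colour it by the parity of `i`. If the
orbit is finite with `p ≥ 2` elements every element is `σ ^ i r` for a unique `0 ≤ i < p`; colour it by
`2` if `i = p - 1` and by the parity of `i` otherwise: then `σ` changes the colour (`p = 2`: colours
`0, 2`). (Alternatively: use Zorn or a well-order of `X` in any way.)
Then: for every `c` in the finite set `D` of the `b⁻¹ * b'`, `b, b' ∈ B`, take `f_c` as above if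
`c ∉ K`, and a constant map otherwise. The map `x ↦ (c ↦ f_c x)` to the finite type `D → Fin 3`,
followed by an equivalence with `Fin m`. If `κ (x * b) = κ (x * b')` and `c = b⁻¹ * b' ∉ K` then
`f_c (x * b * c) = f_c (x * b')= f_c (x * b)`, a contradiction.
-/

set_option autoImplicit false

namespace Pool.Agent.Helper65.GN

variable {G : Type*} [Group G]

private def par (i : ℕ) : Fin 3 := if i % 2 = 0 then 0 else 1

private theorem par_succ (i : ℕ) : par (i + 1) ≠ par i := by
  unfold par
  have h : (i + 1) % 2 = 0 ↔ ¬ i % 2 = 0 := by omega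
  by_cases h1 : i % 2 = 0
  · rw [if_neg (by omega), if_pos h1]
    decide
  · rw [if_pos (by omega), if_neg h1]
    decide

private theorem par_ne (i : ℕ) : par i ≠ 2 := by
  unfold par
  split_ifs <;> decide

theorem perm_colour {X : Type*} (σ : Equiv.Perm X) (hσ : ∀ x, σ x ≠ x) :
    ∃ f : X → Fin 3, ∀ x, f (σ x) ≠ f x := by
  classical
  let r : X → X := fun x => (Quotient.mk (Equiv.Perm.SameCycle.setoid σ) x).out
  have hr1 : ∀ x, r (σ x) = r x := by
    intro x
    have h1 : Quotient.mk (Equiv.Perm.SameCycle.setoid σ) (σ x) =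
        Quotient.mk (Equiv.Perm.SameCycle.setoid σ) x := by
      apply Quotient.sound
      change Equiv.Perm.SameCycle σ (σ x) x
      exact Equiv.Perm.sameCycle_apply_left.2 (Equiv.Perm.SameCycle.refl σ x)
    change Quotient.out _ = Quotient.out _
    rw [h1]
  have hr2 : ∀ x, (∃ i : ℕ, (σ ^ i) (r x) = x) ∨ ∃ j : ℕ, (σ ^ j) x = r x := by
    intro x
    have h1 : Equiv.Perm.SameCycle σ (r x) x :=
      Quotient.exact (s := Equiv.Perm.SameCycle.setoid σ)
        (Quotient.out_eq (Quotient.mk (Equiv.Perm.SameCycle.setoid σ) x))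
    obtain ⟨i, hi⟩ := h1
    obtain ⟨n, rfl | rfl⟩ := i.eq_nat_or_neg
    · left
      exact ⟨n, by rw [zpow_natCast] at hi; exact hi⟩
    · right
      have h2 : (σ ^ n)⁻¹ (r x) = x := by
        rw [zpow_neg, zpow_natCast] at hi
        exact hi
      refine ⟨n, ?_⟩
      calc (σ ^ n) x = (σ ^ n) ((σ ^ n)⁻¹ (r x)) := by rw [h2]
        _ = r x := (σ ^ n).apply_symm_apply (r x)
  refine ⟨fun x => if h : ∃ i : ℕ, (σ ^ i) (r x) = x then
    (if σ x = r x then 2 else par (Nat.find h)) else
    if h' : ∃ j : ℕ, (σ ^ j) x = r x then par (Nat.find h') else 0, fun x => ?_⟩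
  by_cases hx : ∃ i : ℕ, (σ ^ i) (r x) = x
  · have hsx : ∃ i : ℕ, (σ ^ i) (r (σ x)) = σ x := by
      obtain ⟨i, hi⟩ := hx
      refine ⟨i + 1, ?_⟩
      rw [hr1, pow_succ', Equiv.Perm.mul_apply, hi]
    dsimp only
    rw [dif_pos hsx, dif_pos hx]
    by_cases h1 : σ x = r x
    · rw [if_pos h1, if_neg]
      · exact par_ne _
      · rw [hr1, ← h1]
        exact hσ _
    · rw [if_neg h1]
      by_cases h2 : σ (σ x) = r (σ x)
      · rw [if_pos h2]
        exact (par_ne _).symm
      · rw [if_neg h2]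
        have h3 : Nat.find hsx = Nat.find hx + 1 := by
          apply le_antisymm
          · apply Nat.find_min'
            rw [hr1, pow_succ', Equiv.Perm.mul_apply, Nat.find_spec hx]
          · have h4 : (σ ^ (Nat.find hsx)) (r x) = σ x :=
              (congrArg _ (hr1 x).symm).trans (Nat.find_spec hsx)
            rcases Nat.eq_zero_or_pos (Nat.find hsx) with h5 | h5
            · rw [h5, pow_zero, Equiv.Perm.one_apply] at h4
              exact absurd h4.symm h1
            · obtain ⟨l, hl⟩ := Nat.exists_eq_add_of_lt h5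
              rw [zero_add] at hl
              rw [hl] at h4 ⊢
              rw [pow_succ', Equiv.Perm.mul_apply] at h4
              exact Nat.add_le_add_right (Nat.find_min' hx (σ.injective h4)) 1
        rw [h3]
        exact par_succ _
  · have hb : ∃ j : ℕ, (σ ^ j) x = r x := (hr2 x).resolve_left hx
    have hj := Nat.find_spec hb
    have hj0 : Nat.find hb ≠ 0 := by
      intro h0
      rw [h0, pow_zero, Equiv.Perm.one_apply] at hj
      exact hx ⟨0, by rw [pow_zero, Equiv.Perm.one_apply]; exact hj.symm⟩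
    obtain ⟨l, hl⟩ := Nat.exists_eq_succ_of_ne_zero hj0
    have hl' : (σ ^ l) (σ x) = r (σ x) := by
      rw [hl, Nat.succ_eq_add_one, pow_succ, Equiv.Perm.mul_apply] at hj
      rw [hr1]
      exact hj
    dsimp only
    rw [dif_neg hx, dif_pos hb, hl]
    by_cases hl0 : l = 0
    · have h1 : σ x = r x := by
        rw [hl0, pow_zero, Equiv.Perm.one_apply, hr1] at hl'
        exact hl'
      have hsx : ∃ i : ℕ, (σ ^ i) (r (σ x)) = σ x :=
        ⟨0, by rw [pow_zero, Equiv.Perm.one_apply, hr1]; exact h1.symm⟩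
      have h2 : Nat.find hsx = 0 := by
        rw [Nat.find_eq_zero, pow_zero, Equiv.Perm.one_apply, hr1]
        exact h1.symm
      rw [dif_pos hsx, if_neg, h2, hl0]
      · exact (par_succ 0).symm
      · rw [hr1, ← h1]
        exact hσ _
    · have h1 : ¬ σ x = r x := by
        intro h1
        have h2 : Nat.find hb ≤ 1 := Nat.find_min' hb (by rw [pow_one]; exact h1)
        omega
      have hsx : ¬ ∃ i : ℕ, (σ ^ i) (r (σ x)) = σ x := by
        rintro ⟨i, hi⟩
        rw [hr1] at hi
        rcases Nat.eq_zero_or_pos i with h5 | h5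
        · rw [h5, pow_zero, Equiv.Perm.one_apply] at hi
          exact h1 hi.symm
        · obtain ⟨t, ht⟩ := Nat.exists_eq_add_of_lt h5
          rw [zero_add] at ht
          rw [ht, pow_succ', Equiv.Perm.mul_apply] at hi
          exact hx ⟨t, σ.injective hi⟩
      have hsb : ∃ j : ℕ, (σ ^ j) (σ x) = r (σ x) := ⟨l, hl'⟩
      have h3 : Nat.find hsb = l := by
        apply le_antisymm
        · exact Nat.find_min' hsb hl'
        · have h4 := Nat.find_spec hsb
          have h5 : Nat.find hb ≤ Nat.find hsb + 1 := by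
            apply Nat.find_min'
            rw [pow_succ, Equiv.Perm.mul_apply, h4, hr1]
          omega
      rw [dif_neg hsx, dif_pos hsb, h3]
      exact (par_succ l).symm

private theorem single_colour (K K' : Subgroup G) (hn : ∀ g ∈ K', ∀ k ∈ K, g * k * g⁻¹ ∈ K)
    (c : G) (hc : c ∈ K') : ∃ f : G → Fin 3, (∀ x, ∀ k ∈ K, f (x * k) = f x) ∧
      (c ∉ K → ∀ x, f (x * c) ≠ f x) := by
  classical
  by_cases hcK : c ∈ K
  · exact ⟨fun _ => 0, fun _ _ _ => rfl, fun h => absurd hcK h⟩
  have hwd : ∀ d ∈ K', ∀ x y : G, x⁻¹ * y ∈ K → (x * d)⁻¹ * (y * d) ∈ K := by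
    intro d hd x y hxy
    have h1 := hn d⁻¹ (K'.inv_mem hd) _ hxy
    have h2 : (x * d)⁻¹ * (y * d) = d⁻¹ * (x⁻¹ * y) * d⁻¹⁻¹ := by group
    rw [h2]
    exact h1
  let φ : ∀ d ∈ K', G ⧸ K → G ⧸ K := fun d hd =>
    Quotient.map' (fun x => x * d) (fun x y hxy => by
      rw [QuotientGroup.leftRel_apply] at hxy ⊢
      exact hwd d hd x y hxy)
  have hφ : ∀ d hd (x : G), φ d hd (x : G ⧸ K) = ((x * d : G) : G ⧸ K) := fun _ _ _ => rfl
  let σ : Equiv.Perm (G ⧸ K) :=
    { toFun := φ c hc
      invFun := φ c⁻¹ (K'.inv_mem hc)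
      left_inv := fun q => by
        induction q using QuotientGroup.induction_on with
        | H x => rw [hφ c hc, hφ c⁻¹ (K'.inv_mem hc), mul_inv_cancel_right]
      right_inv := fun q => by
        induction q using QuotientGroup.induction_on with
        | H x => rw [hφ c⁻¹ (K'.inv_mem hc), hφ c hc, inv_mul_cancel_right] }
  have hσ : ∀ x : G, σ (x : G ⧸ K) = ((x * c : G) : G ⧸ K) := fun _ => rfl
  have hfix : ∀ q, σ q ≠ q := by
    intro q
    induction q using QuotientGroup.induction_on with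
    | H x =>
      rw [hσ]
      intro h
      rw [QuotientGroup.eq] at h
      have h1 : (x * c)⁻¹ * x = c⁻¹ := by group
      rw [h1] at h
      exact hcK (inv_mem_iff.1 h)
  obtain ⟨f, hf⟩ := perm_colour σ hfix
  refine ⟨fun x => f (x : G ⧸ K), fun x k hk => ?_, fun _ x => ?_⟩
  · have h1 : ((x * k : G) : G ⧸ K) = (x : G ⧸ K) := by
      rw [QuotientGroup.eq]
      have h2 : (x * k)⁻¹ * x = k⁻¹ := by group
      rw [h2]
      exact K.inv_mem hk
    dsimp only
    rw [h1]
  · dsimp only
    rw [← hσ]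
    exact hf _

theorem exists_colour (K K' : Subgroup G) (hn : ∀ g ∈ K', ∀ k ∈ K, g * k * g⁻¹ ∈ K)
    (B : Finset G) (hB : ∀ b ∈ B, b ∈ K') : ∃ (m : ℕ) (κ : G → Fin m),
      (∀ x, ∀ k ∈ K, κ (x * k) = κ x) ∧
      ∀ x, ∀ b ∈ B, ∀ b' ∈ B, κ (x * b) = κ (x * b') → b⁻¹ * b' ∈ K := by
  classical
  have hex : ∀ p : B × B, ∃ f : G → Fin 3, (∀ x, ∀ k ∈ K, f (x * k) = f x) ∧
      ((p.1 : G)⁻¹ * p.2 ∉ K → ∀ x, f (x * ((p.1 : G)⁻¹ * p.2)) ≠ f x) := fun p =>
    single_colour K K' hn _ (K'.mul_mem (K'.inv_mem (hB _ p.1.2)) (hB _ p.2.2))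
  choose f hf1 hf2 using hex
  let e := Fintype.equivFin (B × B → Fin 3)
  refine ⟨_, fun x => e (fun p => f p x), fun x k hk => ?_, fun x b hb b' hb' h => ?_⟩
  · have h1 : (fun p => f p (x * k)) = fun p => f p x := funext fun p => hf1 p x k hk
    dsimp only
    rw [h1]
  · by_contra hcon
    have h1 := congrFun (e.injective h) (⟨b, hb⟩, ⟨b', hb'⟩)
    have h2 := hf2 (⟨b, hb⟩, ⟨b', hb'⟩) hcon (x * b)
    have h3 : x * b * (b⁻¹ * b') = x * b' := by group
    apply h2
    change f _ (x * b * (b⁻¹ * b')) = f _ (x * b)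
    rw [h3]
    exact h1.symm

end Pool.Agent.Helper65.GN
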