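import Pool.Agent.Helper65.GN.Defs

/-!
GN-15. Commutative groups are locally of polynomial growth.
-/

set_option autoImplicit false

namespace Pool.Agent.Helper65.GN

open Pool.Agent.Helper75.Apc (LocallyPolynomialGrowth)
open scoped Pointwise

theorem pow_subset_prod {G : Type*} [CommGroup G] [DecidableEq G] (T : Finset G) (k : ℕ) :
    ∀ g ∈ (T : Set G) ^ k, ∃ e : T → Fin (k + 1), g = ∏ t : T, (t : G) ^ (e t : ℕ) := by
  induction k with
  | zero =>
    intro g hg
    rw [pow_zero, Set.mem_one] at hg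
    exact ⟨fun _ => 0, by simp [hg]⟩
  | succ k ih =>
    intro g hg
    rw [pow_succ, Set.mem_mul] at hg
    obtain ⟨x, hx, y, hy, rfl⟩ := hg
    obtain ⟨e, rfl⟩ := ih x hx
    have hy' : y ∈ T := by simpa using hy
    refine ⟨fun t => if (t : G) = y then ⟨(e t : ℕ) + 1, by have := (e t).2; omega⟩
      else ⟨(e t : ℕ), by have := (e t).2; omega⟩, ?_⟩
    have h1 : ∀ t : T, (t : G) ^ (((if (t : G) = y then (⟨(e t : ℕ) + 1, by
        have := (e t).2; omega⟩ : Fin (k + 1 + 1)) else ⟨(e t : ℕ), by
        have := (e t).2; omega⟩ : Fin (k + 1 + 1)) : ℕ)) =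
        (t : G) ^ (e t : ℕ) * (if t = ⟨y, hy'⟩ then y else 1) := by
      intro t
      by_cases h : (t : G) = y
      · have h2 : t = ⟨y, hy'⟩ := Subtype.ext h
        rw [if_pos h, if_pos h2, pow_succ, h]
      · have h2 : ¬ t = ⟨y, hy'⟩ := fun h3 => h (by rw [h3])
        rw [if_neg h, if_neg h2, mul_one]
    rw [Finset.prod_congr rfl (fun t _ => h1 t), Finset.prod_mul_distrib]
    simp

theorem growth_of_comm {G : Type*} [CommGroup G] : LocallyPolynomialGrowth G := by
  classical
  intro T
  refine ⟨1, T.card, fun k => ?_⟩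
  have h1 : (T : Set G) ^ k ⊆
      Set.range (fun e : T → Fin (k + 1) => ∏ t : T, (t : G) ^ (e t : ℕ)) := by
    intro g hg
    obtain ⟨e, he⟩ := pow_subset_prod T k g hg
    exact ⟨e, he.symm⟩
  have h2 := Set.ncard_le_ncard h1 (Set.finite_range _)
  have h3 : (Set.range (fun e : T → Fin (k + 1) => ∏ t : T, (t : G) ^ (e t : ℕ))).ncard ≤
      (k + 1) ^ T.card := by
    rw [← Set.image_univ]
    refine (Set.ncard_image_le Set.finite_univ).trans ?_
    rw [Set.ncard_univ, Nat.card_eq_fintype_card]
    simp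
  rw [one_mul]
  exact h2.trans h3

theorem growth_of_comm' {G : Type*} [Group G] (h : ∀ a b : G, a * b = b * a) :
    LocallyPolynomialGrowth G := by
  letI : CommGroup G := { (inferInstance : Group G) with mul_comm := h }
  exact growth_of_comm

end Pool.Agent.Helper65.GN
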