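import Pool.Agent.Helper65.TH.Basic
import Pool.Agent.Helper75.Apc.Defs

/-!
Separation of subgroups: definitions.
-/

set_option autoImplicit false

namespace Pool.Agent.Helper65.GN

open Pool.Agent.Helper65.TH (Chain AsdimLT)
open Pool.Agent.Helper75.Apc (LocallyPolynomialGrowth)

/-- `Bdd F A E`: the chains in `A` with steps in `F` starting at a point `x` of `A` stay in `x E`. -/
def Bdd {G : Type*} [Group G] (F : Set G) (A : Set G) (E : Finset G) : Prop :=
  ∀ x ∈ A, ∀ y, Chain F (fun b => b ∈ A) x y → x⁻¹ * y ∈ E

/-- `Sep K L n`: for all finite `T ⊆ L` and `S ⊆ K` the group is the union of `n + 1` sets (the level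
sets of `w`), such that the chains in the first one with steps in `T` are bounded and the chains
in each of the other ones with steps in `S` are bounded. -/
def Sep {G : Type*} [Group G] (K L : Subgroup G) (n : ℕ) : Prop :=
  ∀ T S : Finset G, (∀ s ∈ T, s ∈ L) → (∀ s ∈ S, s ∈ K) → ∃ (w : G → ℕ) (E : Finset G),
    (∀ x, w x ≤ n) ∧ Bdd (T : Set G) {x | w x = 0} E ∧
    ∀ i, 1 ≤ i → Bdd (S : Set G) {x | w x = i} E

/-- `Ascendant H K`: the subgroup `K` is obtained from `H` by repeatedly (possibly transfinitely often)
passing from a subgroup to a larger one in which it is normal, and to directed unions. -/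
inductive Ascendant {G : Type*} [Group G] (H : Subgroup G) : Subgroup G → Prop
  | refl : Ascendant H H
  | normal (K K' : Subgroup G) (hK : Ascendant H K) (hle : K ≤ K')
      (hn : ∀ g ∈ K', ∀ k ∈ K, g * k * g⁻¹ ∈ K) : Ascendant H K'
  | union (S : Set (Subgroup G)) (hne : S.Nonempty) (hdir : DirectedOn (· ≤ ·) S)
      (h : ∀ K ∈ S, Ascendant H K) : Ascendant H (sSup S)

/-- Every finite subset of `K` is contained in a subgroup `H` of `K`, from which `K` can be reached by
an ascending series, and which has finite asymptotic dimension or is locally of polynomial growth. -/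
def Nice {G : Type*} [Group G] (K : Subgroup G) : Prop :=
  ∀ T : Finset G, (∀ s ∈ T, s ∈ K) → ∃ H : Subgroup G, (∀ s ∈ T, s ∈ H) ∧ Ascendant H K ∧
    ((∃ t : ℕ, AsdimLT H t) ∨ LocallyPolynomialGrowth H)

/-- `Reach N`: the normal subgroup `N` is reached from the trivial subgroup by an ascending series of
normal subgroups of `G` (possibly transfinite) with factors satisfying `Nice`. -/
inductive Reach {G : Type*} [Group G] : Subgroup G → Prop
  | bot : Reach ⊥
  | step (N K : Subgroup G) [N.Normal] [K.Normal] (hN : Reach N) (hle : N ≤ K)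
      (h : Nice (K.map (QuotientGroup.mk' N))) : Reach K
  | union (S : Set (Subgroup G)) (hne : S.Nonempty) (hdir : DirectedOn (· ≤ ·) S)
      (h : ∀ K ∈ S, Reach K) : Reach (sSup S)

/-- The finite set `T` is separated in `G`: for every sequence `S 1, S 2, ...` of finite sets there
are `n` and sets `A 0, ..., A n` covering `G` such that chains in `A 0` with steps in `T` are bounded
and chains in `A i` with steps in `S i` are bounded for `1 ≤ i ≤ n`. -/
def Good {G : Type*} [Group G] (T : Finset G) : Prop :=
  ∀ S : ℕ → Finset G, ∃ (n : ℕ) (A : ℕ → Set G) (E : Finset G), (∀ x, ∃ i ≤ n, x ∈ A i) ∧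
    Bdd (T : Set G) (A 0) E ∧ ∀ i, 1 ≤ i → i ≤ n → Bdd (S i : Set G) (A i) E

/-- asymptotic property C in the language of finite sets and chains -/
def ApcC (G : Type*) [Group G] : Prop := ∀ T : Finset G, Good T

end Pool.Agent.Helper65.GN
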