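import Pool.Agent.Helper65.GN.Scales
import Pool.Agent.Helper65.GN.Colour
import Pool.Agent.Helper65.GN.Codim

/-!
GN-08. Main theorem: separation is inherited from a normal subgroup.

Proof. Let `T ⊆ L` and `S ⊆ K'` be finite. We may enlarge `S` (`Bdd.mono`): assume `1 ∈ S` and `S = S⁻¹`. Use
the finite sets `S ^ j` (pointwise powers; increasing in `j`, symmetric, subsets of `K'`) and
`B = S ^ (2 * n + 2)`. Colouring `κ : G → Fin m` from `exists_colour` for `B`. Let
`F = {b⁻¹ * s * b' | b, b' ∈ B, s ∈ S} ∩ K` (finite). Let `ι = Fin m × (Fin m → Fin (n + 2))`, `J` its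
cardinality, `e : ι ≃ Fin J`, `col j = (e.symm j).1` (for `j < J`). `exists_scales` for `T`, `F`, `col`, `J`:
`w`, `E`. Let `W k A = w (e (k, A))`, and `ℓ` from `exists_codim`.
(a) For `i` and `k`: `{z | κ z = k ∧ ℓ k z = i} ⊆ ⋃ j < J, XX B κ k (col j) (w j) (c j)` with
`c j = (∑ k' < k, A_j k') + i`, `(k_j, A_j) = e.symm j` (third property of `ℓ`, with
`j = e (κ (z * b), A)`). So this set is `T`-bounded by `E`, and for `i ≥ 1` it is `F`-bounded by `E`.
(b) Let `q j k x = (S ^ j).sup (fun b => ℓ k (x * b))` and `Φ j x = ∑ k, q j k x`. Then `Φ j x ≤ n` for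
`j ≤ n + 1`: let `k` be the largest colour with `q j k x ≥ 1` (if there is none the sum is `0`), then
`q j k x = ℓ k z` with `z = x * b`, `b ∈ S ^ j`, `κ z = k`; for `k' < k` and `b' ∈ S ^ j`:
`x * b' = z * (b⁻¹ * b')` with `b⁻¹ * b' ∈ S ^ (2 * j) ⊆ B`, so `q j k' x ≤ B.sup (fun b => ℓ k' (z * b))`; use the
second property of `ℓ`. Also `q j k x ≤ q (j + 1) k x`.
(c) Let `w x` be the least `j` with `Φ (j + 1) x ≤ j` (it exists and is `≤ n`). If `w x = j ≥ 1` then
`Φ j x > j - 1`, so `Φ j x = Φ (j + 1) x = j` and `q j k x = q (j + 1) k x` for all `k`.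
(d) `w x = 0`: `Φ 1 x = 0`, so `ℓ (κ x) x = 0` (`1 ∈ S`). A chain in `{w = 0}` with steps in `T ⊆ L ≤ K`
has constant colour `k`, so it is a chain in `{z | κ z = k ∧ ℓ k z = 0}`, bounded by (a).
(e) `w x = j ≥ 1`, chain `x_i` in `{w = j}` with steps in `S`. For `x' = x * s` with `w x = w x' = j`:
`q j k x ≤ q (j + 1) k x' = q j k x'` (`x * b = x' * (s⁻¹ * b)`) for all `k`, and the sums over `k` are both
`j`, so `q j k x = q j k x'`. So `q j k x_i` does not depend on `i`. As `∑ k, q j k x_0 = j ≥ 1` there is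
`k` with `v = q j k x_0 ≥ 1`. For every `i` there is `b_i ∈ S ^ j` with `ℓ k (x_i * b_i) = v`, so
`κ (x_i * b_i) = k`. Then `(x_i * b_i)⁻¹ * (x_(i+1) * b_(i+1)) = b_i⁻¹ * s * b_(i+1)`, and
`κ (x_i * b_i) = k = κ (x_i * (s * b_(i+1)))` with `b_i, s * b_(i+1) ∈ S ^ (j + 1) ⊆ B`, so this element is in `K`,
hence in `F`. So `x_i * b_i` is a chain in `{z | κ z = k ∧ ℓ k z = v}` with steps in `F`, and by (a)
`(x_0 * b_0)⁻¹ * (x_N * b_N) ∈ E`. So `x_0⁻¹ * x_N ∈ conjE B E`. The final bound is `E ∪ conjE B E`.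
-/

set_option autoImplicit false

namespace Pool.Agent.Helper65.GN

open Pool.Agent.Helper65.TH

section

variable {G : Type*} [Group G]

open Classical in
/-- the sets of the products of `j` elements -/
private noncomputable def Sp (S : Finset G) : ℕ → Finset G
  | 0 => {1}
  | (j + 1) => Finset.image₂ (fun a b => a * b) S (Sp S j)

private theorem sp_mul_left {S : Finset G} {j : ℕ} {a b : G} (ha : a ∈ S) (hb : b ∈ Sp S j) :
    a * b ∈ Sp S (j + 1) := by
  classical
  rw [Sp]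
  exact Finset.mem_image₂.2 ⟨a, ha, b, hb, rfl⟩

private theorem sp_mul {S : Finset G} {i j : ℕ} {a b : G} (ha : a ∈ Sp S i) (hb : b ∈ Sp S j) :
    a * b ∈ Sp S (i + j) := by
  classical
  induction i generalizing a with
  | zero =>
    rw [Sp, Finset.mem_singleton] at ha
    rw [ha, one_mul, zero_add]
    exact hb
  | succ i ih =>
    rw [Sp] at ha
    obtain ⟨c, hc, d, hd, rfl⟩ := Finset.mem_image₂.1 ha
    rw [mul_assoc, Nat.succ_add]
    exact sp_mul_left hc (ih hd)

private theorem sp_one {S : Finset G} (h : (1 : G) ∈ S) (j : ℕ) : (1 : G) ∈ Sp S j := by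
  induction j with
  | zero => rw [Sp]; exact Finset.mem_singleton_self _
  | succ j ih =>
    have := sp_mul_left h ih
    rwa [one_mul] at this

private theorem sp_mono {S : Finset G} (h : (1 : G) ∈ S) {i j : ℕ} (hij : i ≤ j) :
    Sp S i ⊆ Sp S j := by
  intro a ha
  obtain ⟨k, rfl⟩ := Nat.exists_eq_add_of_le hij
  have := sp_mul ha (sp_one h k)
  rwa [mul_one] at this

private theorem sp_self {S : Finset G} {a : G} (ha : a ∈ S) : a ∈ Sp S 1 := by
  have := sp_mul_left (j := 0) ha (by rw [Sp]; exact Finset.mem_singleton_self _ : (1 : G) ∈ _)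
  rwa [mul_one] at this

private theorem sp_inv {S : Finset G} (h : ∀ a ∈ S, a⁻¹ ∈ S) {j : ℕ} {a : G} (ha : a ∈ Sp S j) :
    a⁻¹ ∈ Sp S j := by
  classical
  induction j generalizing a with
  | zero =>
    rw [Sp, Finset.mem_singleton] at ha ⊢
    rw [ha, inv_one]
  | succ j ih =>
    rw [Sp] at ha
    obtain ⟨c, hc, d, hd, rfl⟩ := Finset.mem_image₂.1 ha
    rw [mul_inv_rev]
    exact sp_mul (ih hd) (sp_self (h c hc))

private theorem sp_sub {S : Finset G} {K : Subgroup G} (h : ∀ a ∈ S, a ∈ K) {j : ℕ} {a : G}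
    (ha : a ∈ Sp S j) : a ∈ K := by
  classical
  induction j generalizing a with
  | zero =>
    rw [Sp, Finset.mem_singleton] at ha
    rw [ha]
    exact K.one_mem
  | succ j ih =>
    rw [Sp] at ha
    obtain ⟨c, hc, d, hd, rfl⟩ := Finset.mem_image₂.1 ha
    exact K.mul_mem (h c hc) (ih hd)

end

theorem sep_normal {G : Type*} [Group G] (K K' L : Subgroup G) (hL : L ≤ K) (hKK' : K ≤ K')
    (hn : ∀ g ∈ K', ∀ k ∈ K, g * k * g⁻¹ ∈ K) {n : ℕ} (h : Sep K L n) : Sep K' L n := by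
  classical
  intro T S hT hS
  set S1 : Finset G := insert 1 (S ∪ S.image (fun s => s⁻¹)) with hS1
  have h1S : (1 : G) ∈ S1 := Finset.mem_insert_self _ _
  have hSS1 : ∀ s ∈ S, s ∈ S1 := fun s hs =>
    Finset.mem_insert_of_mem (Finset.mem_union_left _ hs)
  have hSinv1 : ∀ s ∈ S, s⁻¹ ∈ S1 := fun s hs =>
    Finset.mem_insert_of_mem (Finset.mem_union_right _ (Finset.mem_image_of_mem _ hs))
  have hS1inv : ∀ s ∈ S1, s⁻¹ ∈ S1 := by
    intro s hs
    rcases Finset.mem_insert.1 hs with rfl | hs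
    · rw [inv_one]
      exact h1S
    · rcases Finset.mem_union.1 hs with hs | hs
      · exact hSinv1 s hs
      · obtain ⟨t, ht, rfl⟩ := Finset.mem_image.1 hs
        rw [inv_inv]
        exact hSS1 t ht
  have hS1K : ∀ s ∈ S1, s ∈ K' := by
    intro s hs
    rcases Finset.mem_insert.1 hs with rfl | hs
    · exact K'.one_mem
    · rcases Finset.mem_union.1 hs with hs | hs
      · exact hS s hs
      · obtain ⟨t, ht, rfl⟩ := Finset.mem_image.1 hs
        exact K'.inv_mem (hS t ht)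
  set B : Finset G := Sp S1 (2 * n + 2) with hB
  have hBK : ∀ b ∈ B, b ∈ K' := fun b hb => sp_sub hS1K hb
  have h1B : (1 : G) ∈ B := sp_one h1S _
  have hBinv : ∀ b ∈ B, b⁻¹ ∈ B := fun b hb => sp_inv hS1inv hb
  obtain ⟨m, κ, hκK, hκB⟩ := exists_colour K K' hn B hBK
  set F : Finset G := ((B ×ˢ S1 ×ˢ B).image (fun p => p.1⁻¹ * p.2.1 * p.2.2)).filter
    (fun g => g ∈ K) with hF
  have hFK : ∀ s ∈ F, s ∈ K := fun s hs => (Finset.mem_filter.1 hs).2
  have hmF : ∀ b ∈ B, ∀ s ∈ S1, ∀ b' ∈ B, b⁻¹ * s * b' ∈ K → b⁻¹ * s * b' ∈ F := by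
    intro b hb s hs b' hb' hk
    refine Finset.mem_filter.2 ⟨Finset.mem_image.2 ⟨(b, s, b'), ?_, rfl⟩, hk⟩
    exact Finset.mem_product.2 ⟨hb, Finset.mem_product.2 ⟨hs, hb'⟩⟩
  set J : ℕ := Fintype.card (Fin m × (Fin m → Fin (n + 2))) with hJ
  set e : (Fin m × (Fin m → Fin (n + 2))) ≃ Fin J := Fintype.equivFin _ with he
  set col : ℕ → Fin m := fun j => if hj : j < J then (e.symm ⟨j, hj⟩).1 else κ 1 with hcol
  set Aj : ℕ → Fin m → Fin (n + 2) := fun j =>
    if hj : j < J then (e.symm ⟨j, hj⟩).2 else fun _ => 0 with hAj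
  obtain ⟨w, E, hwn, hw⟩ := exists_scales K K' L hL hn h B hBK κ hκK hκB T F hT hFK col J
  obtain ⟨ℓ, hℓ0, hℓ2, hℓ3⟩ := exists_codim B h1B hBinv κ
    (fun k A x => w (e (k, A)) x) (fun k A x => hwn _ _)
  -- (a)
  have ha : ∀ (k : Fin m) (i : ℕ), {z | κ z = k ∧ ℓ k z = i} ⊆ ⋃ j ∈ Finset.range J,
      XX B κ k (col j) (w j)
        ((∑ k' ∈ Finset.univ.filter (fun k' => k' < k), (Aj j k' : ℕ)) + i) := by
    rintro k i z ⟨hz1, hz2⟩
    obtain ⟨b, hb, A, hA⟩ := hℓ3 z
    rw [hz1, hz2] at hA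
    have hlt : (e (κ (z * b), A) : ℕ) < J := (e (κ (z * b), A)).2
    have e1 : (⟨(e (κ (z * b), A) : ℕ), hlt⟩ : Fin J) = e (κ (z * b), A) := rfl
    refine Set.mem_iUnion₂.2 ⟨(e (κ (z * b), A) : ℕ), Finset.mem_range.2 hlt, hz1, b, hb, ?_, ?_⟩
    · rw [hcol]
      simp only [hlt, dite_true]
      rw [e1, Equiv.symm_apply_apply]
    · rw [hAj]
      simp only [hlt, dite_true]
      rw [e1, Equiv.symm_apply_apply]
      exact hA
  have haT : ∀ (k : Fin m) (i : ℕ), Bdd (T : Set G) {z | κ z = k ∧ ℓ k z = i} E := fun k i =>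
    ((hw k _).1).mono le_rfl (ha k i) le_rfl
  have haF : ∀ (k : Fin m) (i : ℕ), 1 ≤ i → Bdd (F : Set G) {z | κ z = k ∧ ℓ k z = i} E :=
    fun k i hi => ((hw k fun j => (∑ k' ∈ Finset.univ.filter (fun k' => k' < k),
      (Aj j k' : ℕ)) + i).2 (fun j _ => by omega)).mono le_rfl (ha k i) le_rfl
  -- (b)
  set q : ℕ → Fin m → G → ℕ := fun j k x => (Sp S1 j).sup (fun b => ℓ k (x * b)) with hq
  have hle : ∀ j k x b, b ∈ Sp S1 j → ℓ k (x * b) ≤ q j k x := fun j k x b hb =>
    Finset.le_sup (f := fun b => ℓ k (x * b)) hb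
  have hex : ∀ j k x, ∃ b ∈ Sp S1 j, q j k x = ℓ k (x * b) := fun j k x =>
    Finset.exists_mem_eq_sup (Sp S1 j) ⟨1, sp_one h1S j⟩ (fun b => ℓ k (x * b))
  have hqmono : ∀ j k x, q j k x ≤ q (j + 1) k x := fun j k x =>
    Finset.sup_mono (sp_mono h1S (Nat.le_succ j))
  have hΦ : ∀ j x, j ≤ n + 1 → ∑ k, q j k x ≤ n := by
    intro j x hj
    by_cases hne : (Finset.univ.filter (fun k => 1 ≤ q j k x)).Nonempty
    · obtain ⟨k, hk, hmax⟩ := Finset.exists_max_image _ (fun k : Fin m => k) hne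
      have hk1 : 1 ≤ q j k x := (Finset.mem_filter.1 hk).2
      obtain ⟨b, hb, hbq⟩ := hex j k x
      have hκ : κ (x * b) = k := by
        by_contra hne'
        have := hℓ0 k (x * b) hne'
        omega
      have h2 := hℓ2 (x * b)
      rw [hκ] at h2
      have hsplit : ∑ k', q j k' x = (∑ k' ∈ Finset.univ.filter (fun k' => k' < k), q j k' x) +
          q j k x := by
        rw [← Finset.sum_filter_add_sum_filter_not Finset.univ (fun k' => k' < k)]
        congr 1
        apply Finset.sum_eq_single_of_mem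
        · exact Finset.mem_filter.2 ⟨Finset.mem_univ _, lt_irrefl _⟩
        · intro k' hk' hne'
          have hk'' := (Finset.mem_filter.1 hk').2
          by_contra h0
          have h3 := hmax k' (Finset.mem_filter.2 ⟨Finset.mem_univ _, by omega⟩)
          exact hne' (le_antisymm h3 (not_lt.1 hk''))
      rw [hsplit, hbq]
      refine le_trans (Nat.add_le_add_right (Finset.sum_le_sum fun k' _ => ?_) _) h2
      apply Finset.sup_le
      intro b' hb'
      have h3 : x * b' = x * b * (b⁻¹ * b') := by group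
      have h4 : b⁻¹ * b' ∈ B := by
        refine sp_mono h1S ?_ (sp_mul (sp_inv hS1inv hb) hb')
        omega
      rw [h3]
      exact Finset.le_sup (f := fun c => ℓ k' (x * b * c)) h4
    · have h0 : ∑ k, q j k x = 0 := by
        apply Finset.sum_eq_zero
        intro k _
        by_contra h0
        exact hne ⟨k, Finset.mem_filter.2 ⟨Finset.mem_univ _, by omega⟩⟩
      omega
  -- (c)
  have hfind : ∀ x, ∃ j, ∑ k, q (j + 1) k x ≤ j := fun x => ⟨n, hΦ (n + 1) x le_rfl⟩
  set ww : G → ℕ := fun x => Nat.find (hfind x) with hww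
  have hwwn : ∀ x, ww x ≤ n := fun x => Nat.find_min' (hfind x) (hΦ (n + 1) x le_rfl)
  have hwspec : ∀ x, ∑ k, q (ww x + 1) k x ≤ ww x := fun x => Nat.find_spec (hfind x)
  have hc : ∀ x j, ww x = j → 1 ≤ j → (∑ k, q j k x = j) ∧ ∀ k, q j k x = q (j + 1) k x := by
    intro x j hj h1
    have h2 := hwspec x
    rw [hj] at h2
    have h3 : ¬ (∑ k, q (j - 1 + 1) k x ≤ j - 1) := Nat.find_min (hfind x) (by
      change j - 1 < ww x
      omega)
    have h4 : j - 1 + 1 = j := by omega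
    rw [h4] at h3
    have h5 : ∑ k, q j k x ≤ ∑ k, q (j + 1) k x := Finset.sum_le_sum fun k _ => hqmono j k x
    refine ⟨by omega, ?_⟩
    have h6 : ∑ k, q j k x = ∑ k, q (j + 1) k x := by omega
    have h7 := (Finset.sum_eq_sum_iff_of_le fun k _ => hqmono j k x).1 h6
    exact fun k => h7 k (Finset.mem_univ _)
  refine ⟨ww, E ∪ conjE B E, hwwn, ?_, ?_⟩
  · -- (d)
    intro x hx y hxy
    have hzero : ∀ z, ww z = 0 → ℓ (κ z) z = 0 := by
      intro z hz
      have h2 := hwspec z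
      rw [hz] at h2
      have h3 : q 1 (κ z) z ≤ ∑ k, q 1 k z :=
        Finset.single_le_sum (f := fun k => q 1 k z) (fun _ _ => Nat.zero_le _)
          (Finset.mem_univ _)
      have h4 := hle 1 (κ z) z 1 (sp_one h1S 1)
      rw [mul_one] at h4
      rw [zero_add] at h2
      omega
    have hch := hxy.strengthen (R := fun z => κ z = κ x) rfl (by
      intro a b _ hab hs _
      have h1 : b = a * (a⁻¹ * b) := by group
      rw [h1, hκK a _ (hL (hT _ hs))]
      exact hab)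
    have hch2 : Chain (T : Set G) (fun b => b ∈ {z | κ z = κ x ∧ ℓ (κ x) z = 0}) x y :=
      hch.1.mono le_rfl (by
        rintro b ⟨hb1, hb2⟩
        refine ⟨hb2, ?_⟩
        rw [← hb2]
        exact hzero b hb1)
    exact Finset.mem_union_left _ (haT (κ x) 0 x ⟨rfl, hzero x hx⟩ y hch2)
  · -- (e)
    intro j hj x hx y hxy
    have hx' : ww x = j := hx
    have hjn : j ≤ n := hx' ▸ hwwn x
    have hΦx := (hc x j hx' hj).1
    obtain ⟨k, hk⟩ : ∃ k, 1 ≤ q j k x := by
      by_contra hno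
      push Not at hno
      have : ∑ k, q j k x = 0 := Finset.sum_eq_zero fun k _ => by
        have := hno k
        omega
      omega
    have hstep : ∀ a b, ww a = j → ww b = j → a⁻¹ * b ∈ S → ∀ k, q j k a = q j k b := by
      intro a b ha' hb' hs
      have h1 : ∀ k ∈ (Finset.univ : Finset (Fin m)), q j k a ≤ q j k b := by
        intro k _
        rw [(hc b j hb' hj).2 k]
        apply Finset.sup_le
        intro c hcc
        have h2 : a * c = b * ((a⁻¹ * b)⁻¹ * c) := by group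
        rw [h2]
        exact hle (j + 1) k b _ (sp_mul_left (hSinv1 _ hs) hcc)
      have h2 : ∑ k, q j k a = ∑ k, q j k b := by
        rw [(hc a j ha' hj).1, (hc b j hb' hj).1]
      exact fun k => (Finset.sum_eq_sum_iff_of_le h1).1 h2 k (Finset.mem_univ _)
    set v := q j k x with hv
    have hmem : ∀ z, q j k z = v → ∃ b ∈ Sp S1 j, ℓ k (z * b) = v ∧ κ (z * b) = k := by
      intro z hz
      obtain ⟨b, hb, hbq⟩ := hex j k z
      refine ⟨b, hb, by rw [← hbq, hz], ?_⟩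
      by_contra hne
      have := hℓ0 k (z * b) hne
      omega
    obtain ⟨b₀, hb₀, hb₀1, hb₀2⟩ := hmem x rfl
    have hinv := hxy.rec' (R := fun z => ww z = j ∧ q j k z = v ∧ ∃ b ∈ Sp S1 j, ℓ k (z * b) = v ∧
        κ (z * b) = k ∧ Chain (F : Set G) (fun g => g ∈ {z | κ z = k ∧ ℓ k z = v}) (x * b₀) (z * b))
      ⟨hx', rfl, b₀, hb₀, hb₀1, hb₀2, Chain.refl _ _ _⟩ (by
        rintro a c _ ⟨ha1, ha2, b, hb, hb1, hb2, hb3⟩ hs hcj
        have hcj' : ww c = j := hcj
        have hq2 : q j k c = v := by rw [← hstep a c ha1 hcj' hs k, ha2]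
        obtain ⟨b', hb', hb1', hb2'⟩ := hmem c hq2
        refine ⟨hcj', hq2, b', hb', hb1', hb2', hb3.step ?_ ⟨hb2', hb1'⟩⟩
        have e1 : (a * b)⁻¹ * (c * b') = b⁻¹ * (a⁻¹ * c) * b' := by group
        rw [e1]
        have hbB : b ∈ B := sp_mono h1S (by omega) hb
        have hbB' : b' ∈ B := sp_mono h1S (by omega) hb'
        have hsb : (a⁻¹ * c) * b' ∈ B :=
          sp_mono h1S (by omega) (sp_mul_left (hSS1 _ hs) hb')
        have hK := hκB a b hbB _ hsb (by
          have e2 : a * ((a⁻¹ * c) * b') = c * b' := by group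
          rw [e2, hb2, hb2'])
        rw [← mul_assoc] at hK
        exact hmF b hbB _ (hSS1 _ hs) b' hbB' hK)
    obtain ⟨-, -, b, hb, hb1, hb2, hb3⟩ := hinv
    have hE := haF k v hk (x * b₀) ⟨hb₀2, hb₀1⟩ (y * b) hb3
    have e3 : x⁻¹ * y = b₀ * ((x * b₀)⁻¹ * (y * b)) * b⁻¹ := by group
    rw [e3]
    exact Finset.mem_union_right _ (mem_conjE (sp_mono h1S (by omega) hb₀) hE
      (sp_mono h1S (by omega) hb))

end Pool.Agent.Helper65.GN
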