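import Pool.Agent.Helper65.GN.Simul

/-!
GN-03. Thickening the walls.

Proof. Let `C' = insert 1 C`. Apply `sep_simul` with the finite set `S₀` of all `c * s * c'⁻¹`,
`c, c' ∈ C'`, `s ∈ S` (they lie in `K`): `w₀`, `E₀`. Put `w x = C'.sup (fun c => w₀ (x * c⁻¹))`, and
`E = E₀ ∪ {c⁻¹ * e * c' | c, c' ∈ C', e ∈ E₀}`. If `c ∈ C` and `w (y * c) = 0` then `w₀ (y * c * c⁻¹) = 0`, so
`{y | ∃ c ∈ C, w (y * c) = 0} ⊆ {w₀ = 0}`. For `i ≥ 1` and `w x = i` there is `c ∈ C'` with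
`w₀ (x * c⁻¹) = i` (`Finset.exists_mem_eq_sup`); for a chain `x_j` in `{w = i}` with steps in `S` one gets
points `x_j * c_j⁻¹` in `{w₀ = i}`, with steps `c_j * s * c_(j+1)⁻¹ ∈ S₀`: invariant
`R z := ∃ c ∈ C', w₀ (z * c⁻¹) = i ∧ Chain S₀ {w₀ = i} (x * c₀⁻¹) (z * c⁻¹)`. So
`(x * c₀⁻¹)⁻¹ * (y * c⁻¹) ∈ E₀`.
-/

set_option autoImplicit false

namespace Pool.Agent.Helper65.GN

open Pool.Agent.Helper65.TH

variable {G : Type*} [Group G]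

theorem sep_thick (K K' L : Subgroup G) (hL : L ≤ K)
    (hn : ∀ g ∈ K', ∀ k ∈ K, g * k * g⁻¹ ∈ K) {n : ℕ} (h : Sep K L n) (T : Finset G)
    (hT : ∀ s ∈ T, s ∈ L) (B : Finset G) (hB : ∀ b ∈ B, b ∈ K') (S : Finset G)
    (hS : ∀ s ∈ S, s ∈ K) (C : Finset G) (hC : ∀ c ∈ C, c ∈ K) :
    ∃ (w : G → ℕ) (E : Finset G), (∀ x, w x ≤ n) ∧
      (∀ b ∈ B, Bdd {s | b * s * b⁻¹ ∈ T} {y | ∃ c ∈ C, w (y * c) = 0} E) ∧
      ∀ i, 1 ≤ i → Bdd (S : Set G) {x | w x = i} E := by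
  classical
  let C' : Finset G := insert 1 C
  have hC' : ∀ c ∈ C', c ∈ K := by
    intro c hc
    rcases Finset.mem_insert.1 hc with h1 | h1
    · rw [h1]
      exact K.one_mem
    · exact hC c h1
  have hne : C'.Nonempty := ⟨1, Finset.mem_insert_self _ _⟩
  let S₀ : Finset G := (C' ×ˢ (S ×ˢ C')).image fun p => p.1 * p.2.1 * p.2.2⁻¹
  have hS₀ : ∀ c ∈ C', ∀ s ∈ S, ∀ c' ∈ C', c * s * c'⁻¹ ∈ S₀ := by
    intro c hc s hs c' hc'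
    exact Finset.mem_image.2 ⟨(c, s, c'), Finset.mem_product.2 ⟨hc, Finset.mem_product.2
      ⟨hs, hc'⟩⟩, rfl⟩
  have hS₀K : ∀ s ∈ S₀, s ∈ K := by
    intro s hs
    obtain ⟨⟨c, s', c'⟩, hp, rfl⟩ := Finset.mem_image.1 hs
    rw [Finset.mem_product, Finset.mem_product] at hp
    exact K.mul_mem (K.mul_mem (hC' _ hp.1) (hS _ hp.2.1)) (K.inv_mem (hC' _ hp.2.2))
  obtain ⟨w₀, E₀, hw₀, hT₀, hE₀⟩ := sep_simul K K' L hL hn h T hT B hB S₀ hS₀K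
  let w : G → ℕ := fun x => C'.sup fun c => w₀ (x * c⁻¹)
  have hwc : ∀ x, ∃ c ∈ C', w₀ (x * c⁻¹) = w x := by
    intro x
    obtain ⟨c, hc, h1⟩ := Finset.exists_mem_eq_sup C' hne fun c => w₀ (x * c⁻¹)
    exact ⟨c, hc, h1.symm⟩
  refine ⟨w, E₀ ∪ (C' ×ˢ (E₀ ×ˢ C')).image fun p => p.1⁻¹ * p.2.1 * p.2.2,
    fun x => Finset.sup_le fun c _ => hw₀ _, fun b hb => ?_, fun i hi => ?_⟩
  · have h1 : ∀ y, (∃ c ∈ C, w (y * c) = 0) → w₀ y = 0 := by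
      rintro y ⟨c, hc, h2⟩
      have h3 : w₀ (y * c * c⁻¹) ≤ w (y * c) :=
        Finset.le_sup (f := fun c' => w₀ (y * c * c'⁻¹)) (Finset.mem_insert_of_mem hc)
      rw [mul_inv_cancel_right, h2] at h3
      exact Nat.le_zero.1 h3
    intro x hx y hxy
    refine Finset.mem_union_left _ (hT₀ b hb x (h1 x hx) y ?_)
    exact hxy.mono (fun s hs => hs) fun z hz => h1 z hz
  · intro x hx y hxy
    obtain ⟨c₀, hc₀, h0⟩ := hwc x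
    have hx' : w x = i := hx
    have h1 : ∃ c ∈ C', w₀ (y * c⁻¹) = i ∧
        Chain (S₀ : Set G) (fun z => z ∈ {z | w₀ z = i}) (x * c₀⁻¹) (y * c⁻¹) := by
      refine hxy.rec' (R := fun z => ∃ c ∈ C', w₀ (z * c⁻¹) = i ∧
        Chain (S₀ : Set G) (fun z => z ∈ {z | w₀ z = i}) (x * c₀⁻¹) (z * c⁻¹))
        ⟨c₀, hc₀, h0.trans hx', Chain.refl _ _ _⟩ ?_
      rintro a b - ⟨c, hc, h2, h3⟩ hs hb
      obtain ⟨c', hc', h4⟩ := hwc b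
      have hb' : w b = i := hb
      refine ⟨c', hc', h4.trans hb', h3.step ?_ (h4.trans hb')⟩
      have h5 : (a * c⁻¹)⁻¹ * (b * c'⁻¹) = c * (a⁻¹ * b) * c'⁻¹ := by group
      rw [h5]
      exact hS₀ c hc _ hs c' hc'
    obtain ⟨c, hc, h2, h3⟩ := h1
    have h4 := hE₀ i hi (x * c₀⁻¹) (h0.trans hx') _ h3
    refine Finset.mem_union_right _ (Finset.mem_image.2 ⟨(c₀, _, c), Finset.mem_product.2
      ⟨hc₀, Finset.mem_product.2 ⟨h4, hc⟩⟩, ?_⟩)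
    change c₀⁻¹ * ((x * c₀⁻¹)⁻¹ * (y * c⁻¹)) * c = x⁻¹ * y
    group

end Pool.Agent.Helper65.GN
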