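import Pool.Agent.Helper65.GN.Xset
import Pool.Agent.Helper65.GN.Thick

/-!
GN-06. The sequence of scales.

Proof. Induction on `J`. `J = 0`: the union is empty (`bdd_empty`), take `w = fun _ _ => 0`, `E = ∅`.
Step: let `w`, `E₀` be given for `J`. Let `T' = T ∪ {t * e * t' | t, t' ∈ T, e ∈ E₀, e ∈ L}` (a finite
subset of `L`), `F'' = F ∪ {f * e * f' | f, f' ∈ F, e ∈ E₀, e ∈ K}` (a finite subset of `K`),
`S' = {b⁻¹ * g * b' | b, b' ∈ B, g ∈ T' ∪ F''} ∩ K`, `C = {b⁻¹ * b' | b, b' ∈ B} ∩ K`. Apply `sep_thick` with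
`T'`, `B`, `S'`, `C`: `v`, `E_v`. The new sequence is `w' = Function.update w J v`, and
`E = suE T E₀ (conjE B E_v) ∪ suE F E₀ (conjE B E_v)`. The union over `range (J + 1)` is the union over
`range J` (there `w' = w`) and the set `XX B κ k (col J) v (c J)`. This set is `T'`-bounded by
`conjE B E_v`: if `c J = 0` by `xx_bdd_zero`, if `c J ≥ 1` by `xx_bdd_pos` with `F' = T'`; and if
`c J ≥ 1` it is `F''`-bounded by `xx_bdd_pos` with `F' = F''`. So `bdd_union` (with `C = L`, `F = T`,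
`F₁ = T'`, resp. with `C = K`, `F = F`, `F₁ = F''`) gives both statements.
-/

set_option autoImplicit false

namespace Pool.Agent.Helper65.GN

open Pool.Agent.Helper65.TH

variable {G : Type*} [Group G]

theorem exists_scales (K K' L : Subgroup G) (hL : L ≤ K)
    (hn : ∀ g ∈ K', ∀ k ∈ K, g * k * g⁻¹ ∈ K) {n : ℕ} (h : Sep K L n) (B : Finset G)
    (hB : ∀ b ∈ B, b ∈ K') {m : ℕ} (κ : G → Fin m) (hκK : ∀ x, ∀ k ∈ K, κ (x * k) = κ x)
    (hκB : ∀ x, ∀ b ∈ B, ∀ b' ∈ B, κ (x * b) = κ (x * b') → b⁻¹ * b' ∈ K) (T F : Finset G)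
    (hT : ∀ s ∈ T, s ∈ L) (hF : ∀ s ∈ F, s ∈ K) (col : ℕ → Fin m) (J : ℕ) :
    ∃ (w : ℕ → G → ℕ) (E : Finset G), (∀ j x, w j x ≤ n) ∧ ∀ (k : Fin m) (c : ℕ → ℕ),
      Bdd (T : Set G) (⋃ j ∈ Finset.range J, XX B κ k (col j) (w j) (c j)) E ∧
      ((∀ j < J, 1 ≤ c j) →
        Bdd (F : Set G) (⋃ j ∈ Finset.range J, XX B κ k (col j) (w j) (c j)) E) := by
  classical
  induction J with
  | zero =>
    refine ⟨fun _ _ => 0, ∅, fun _ _ => Nat.zero_le _, fun k c => ⟨?_, fun _ => ?_⟩⟩
    · have h0 : (⋃ j ∈ Finset.range 0, XX B κ k (col j) (fun _ => 0) (c j)) = ∅ := by simp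
      rw [h0]
      exact bdd_empty _ _
    · have h0 : (⋃ j ∈ Finset.range 0, XX B κ k (col j) (fun _ => 0) (c j)) = ∅ := by simp
      rw [h0]
      exact bdd_empty _ _
  | succ J ih =>
    obtain ⟨w, E₀, hw, hE₀⟩ := ih
    set T' : Finset G := T ∪ ((T ×ˢ (E₀.filter (fun e => e ∈ L)) ×ˢ T).image
      (fun p => p.1 * p.2.1 * p.2.2)) with hT'def
    set F'' : Finset G := F ∪ ((F ×ˢ (E₀.filter (fun e => e ∈ K)) ×ˢ F).image
      (fun p => p.1 * p.2.1 * p.2.2)) with hF''def
    set S' : Finset G := ((B ×ˢ (T' ∪ F'') ×ˢ B).image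
      (fun p => p.1⁻¹ * p.2.1 * p.2.2)).filter (fun e => e ∈ K) with hS'def
    set C : Finset G := ((B ×ˢ B).image (fun p => p.1⁻¹ * p.2)).filter (fun e => e ∈ K) with hCdef
    have hT'L : ∀ s ∈ T', s ∈ L := by
      intro s hs
      rw [hT'def, Finset.mem_union] at hs
      rcases hs with hs | hs
      · exact hT s hs
      · obtain ⟨⟨t, e, t'⟩, hp, rfl⟩ := Finset.mem_image.1 hs
        simp only [Finset.mem_product, Finset.mem_filter] at hp
        exact L.mul_mem (L.mul_mem (hT _ hp.1) hp.2.1.2) (hT _ hp.2.2)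
    have hF''K : ∀ s ∈ F'', s ∈ K := by
      intro s hs
      rw [hF''def, Finset.mem_union] at hs
      rcases hs with hs | hs
      · exact hF s hs
      · obtain ⟨⟨t, e, t'⟩, hp, rfl⟩ := Finset.mem_image.1 hs
        simp only [Finset.mem_product, Finset.mem_filter] at hp
        exact K.mul_mem (K.mul_mem (hF _ hp.1) hp.2.1.2) (hF _ hp.2.2)
    have hS'K : ∀ s ∈ S', s ∈ K := fun s hs => (Finset.mem_filter.1 hs).2
    have hCK : ∀ s ∈ C, s ∈ K := fun s hs => (Finset.mem_filter.1 hs).2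
    have hS'mem : ∀ b ∈ B, ∀ f ∈ T' ∪ F'', ∀ b' ∈ B, b⁻¹ * f * b' ∈ K → b⁻¹ * f * b' ∈ S' := by
      intro b hb f hf b' hb' hK
      exact Finset.mem_filter.2 ⟨Finset.mem_image.2 ⟨(b, f, b'), by
        simp only [Finset.mem_product]
        exact ⟨hb, hf, hb'⟩, rfl⟩, hK⟩
    have hCmem : ∀ b ∈ B, ∀ b' ∈ B, b⁻¹ * b' ∈ K → b⁻¹ * b' ∈ C := by
      intro b hb b' hb' hK
      exact Finset.mem_filter.2 ⟨Finset.mem_image.2 ⟨(b, b'), by
        simp only [Finset.mem_product]
        exact ⟨hb, hb'⟩, rfl⟩, hK⟩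
    obtain ⟨v, Ev, hv, hv0, hv1⟩ := sep_thick K K' L hL hn h T' hT'L B hB S' hS'K C hCK
    refine ⟨Function.update w J v,
      suE T E₀ (conjE B Ev) ∪ suE F E₀ (conjE B Ev), ?_, fun k c => ?_⟩
    · intro j x
      rcases eq_or_ne j J with rfl | hj
      · rw [Function.update_self]
        exact hv x
      · rw [Function.update_of_ne hj]
        exact hw j x
    have hU : (⋃ j ∈ Finset.range (J + 1), XX B κ k (col j) (Function.update w J v j) (c j)) =
        (⋃ j ∈ Finset.range J, XX B κ k (col j) (w j) (c j)) ∪ XX B κ k (col J) v (c J) := by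
      ext z
      simp only [Set.mem_iUnion, Set.mem_union, Finset.mem_range]
      constructor
      · rintro ⟨j, hj, hz⟩
        rcases eq_or_ne j J with rfl | hjJ
        · right
          rwa [Function.update_self] at hz
        · left
          rw [Function.update_of_ne hjJ] at hz
          exact ⟨j, by omega, hz⟩
      · rintro (⟨j, hj, hz⟩ | hz)
        · refine ⟨j, by omega, ?_⟩
          rwa [Function.update_of_ne (by omega)]
        · refine ⟨J, by omega, ?_⟩
          rwa [Function.update_self]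
    rw [hU]
    have hposT : 1 ≤ c J → Bdd (T' : Set G) (XX B κ k (col J) v (c J)) (conjE B Ev) := by
      intro hc
      exact xx_bdd_pos K K' hn B hB κ hκK hκB k (col J) v (c J) T' S' Ev
        (fun f hf => hL (hT'L f hf))
        (fun b hb f hf b' hb' hK => hS'mem b hb f (Finset.mem_union_left _ hf) b' hb' hK)
        (hv1 _ hc)
    have hposF : 1 ≤ c J → Bdd (F'' : Set G) (XX B κ k (col J) v (c J)) (conjE B Ev) := by
      intro hc
      exact xx_bdd_pos K K' hn B hB κ hκK hκB k (col J) v (c J) F'' S' Ev hF''K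
        (fun b hb f hf b' hb' hK => hS'mem b hb f (Finset.mem_union_right _ hf) b' hb' hK)
        (hv1 _ hc)
    have hzero : Bdd (T' : Set G) (XX B κ k (col J) v 0) (conjE B Ev) :=
      xx_bdd_zero K K' hn B hB κ hκK hκB k (col J) v T' C Ev (fun f hf => hL (hT'L f hf)) hCmem hv0
    constructor
    · have h1 : Bdd (T' : Set G) (XX B κ k (col J) v (c J)) (conjE B Ev) := by
        rcases Nat.eq_zero_or_pos (c J) with hc | hc
        · rw [hc]
          exact hzero
        · exact hposT hc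
      refine (bdd_union L T hT _ _ E₀ T' (conjE B Ev) (hE₀ k c).1 h1 Finset.subset_union_left
        ?_).mono subset_rfl subset_rfl Finset.subset_union_left
      intro f hf e he heL f' hf'
      refine Finset.mem_union_right _ (Finset.mem_image.2 ⟨(f, e, f'), ?_, rfl⟩)
      simp only [Finset.mem_product, Finset.mem_filter]
      exact ⟨hf, ⟨he, heL⟩, hf'⟩
    · intro hc
      refine (bdd_union K F hF _ _ E₀ F'' (conjE B Ev) ((hE₀ k c).2 (fun j hj => hc j (by omega)))
        (hposF (hc J (by omega))) Finset.subset_union_left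
        ?_).mono subset_rfl subset_rfl Finset.subset_union_right
      intro f hf e he heL f' hf'
      refine Finset.mem_union_right _ (Finset.mem_image.2 ⟨(f, e, f'), ?_, rfl⟩)
      simp only [Finset.mem_product, Finset.mem_filter]
      exact ⟨hf, ⟨he, heL⟩, hf'⟩

end Pool.Agent.Helper65.GN
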