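import Pool.Agent.Helper65.GN.Union

/-!
GN-02. Simultaneous separation of finitely many conjugates.

Proof. Induction over the finite set `B` (`Finset.induction_on`), for all `S`. For `B = ∅` use `h` with
`T = ∅` and `S`. Step `insert b B`: apply `h` to `T` and to the finite set `S_b` of the `b * s * b⁻¹`,
`s ∈ S` (it lies in `K` by `hn`): `v`, `E_v`. Put `w₀ x = v (x * b⁻¹)` and `E₀` = the finite set of the
`b⁻¹ * e * b`, `e ∈ E_v`. A chain `x_j` with steps in `{s | b * s * b⁻¹ ∈ T}` in the zero set of `w₀` gives the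
chain `x_j * b⁻¹` with steps `b * s * b⁻¹` in the zero set of `v` (`Chain.map`), so the zero set of
`w₀` is bounded by `E₀`; in the same way the level sets of `w₀` are `S`-bounded by `E₀`. Let
`S₁ = S ∪ {s * e * s' | s, s' ∈ S, e ∈ E₀, e ∈ K}`, a finite subset of `K`, and let `w₁`, `E₁` be from the
induction hypothesis for `S₁`. Put `w x = if w₁ x = 0 then w₀ x else w₁ x`,
`E = E₀ ∪ E₁ ∪ suE S E₀ E₁`. The zero set of `w` lies in the zero sets of `w₁` and `w₀`. For `i ≥ 1` the
level set of `w` lies in `{w₀ = i} ∪ {w₁ = i}`: `bdd_union` with `C = K`, `F = S`, `F₁ = S₁`.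
-/

set_option autoImplicit false

namespace Pool.Agent.Helper65.GN

open Pool.Agent.Helper65.TH

variable {G : Type*} [Group G]

theorem sep_simul (K K' L : Subgroup G) (hL : L ≤ K)
    (hn : ∀ g ∈ K', ∀ k ∈ K, g * k * g⁻¹ ∈ K) {n : ℕ} (h : Sep K L n) (T : Finset G)
    (hT : ∀ s ∈ T, s ∈ L) (B : Finset G) (hB : ∀ b ∈ B, b ∈ K') (S : Finset G)
    (hS : ∀ s ∈ S, s ∈ K) : ∃ (w : G → ℕ) (E : Finset G), (∀ x, w x ≤ n) ∧
      (∀ b ∈ B, Bdd {s | b * s * b⁻¹ ∈ T} {x | w x = 0} E) ∧
      ∀ i, 1 ≤ i → Bdd (S : Set G) {x | w x = i} E := by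
  classical
  induction B using Finset.induction_on generalizing S with
  | empty =>
    obtain ⟨w, E, h1, -, h3⟩ := h ∅ S (fun s hs => absurd hs (Finset.notMem_empty s)) hS
    exact ⟨w, E, h1, fun b hb => absurd hb (Finset.notMem_empty b), h3⟩
  | insert b B _ ih =>
    have hb : b ∈ K' := hB b (Finset.mem_insert_self b B)
    have hSb : ∀ s ∈ S.image (fun s => b * s * b⁻¹), s ∈ K := by
      intro s hs
      obtain ⟨s', hs', rfl⟩ := Finset.mem_image.1 hs
      exact hn b hb s' (hS s' hs')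
    obtain ⟨v, Ev, hv1, hv2, hv3⟩ := h T (S.image (fun s => b * s * b⁻¹)) hT hSb
    let E₀ : Finset G := Ev.image (fun e => b⁻¹ * e * b)
    let w₀ : G → ℕ := fun x => v (x * b⁻¹)
    have hconj : ∀ x y : G, (x * b⁻¹)⁻¹ * (y * b⁻¹) = b * (x⁻¹ * y) * b⁻¹ := by
      intro x y
      group
    have hE₀ : ∀ x y : G, (x * b⁻¹)⁻¹ * (y * b⁻¹) ∈ Ev → x⁻¹ * y ∈ E₀ := by
      intro x y hxy
      refine Finset.mem_image.2 ⟨_, hxy, ?_⟩
      rw [hconj]
      group
    have hw₀0 : Bdd {s | b * s * b⁻¹ ∈ T} {x | w₀ x = 0} E₀ := by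
      intro x hx y hxy
      apply hE₀
      apply hv2 (x * b⁻¹) hx (y * b⁻¹)
      refine hxy.map (fun z => z * b⁻¹) ?_
      intro a c hac hc
      refine ⟨?_, hc⟩
      rw [hconj]
      exact hac
    have hw₀i : ∀ i, 1 ≤ i → Bdd (S : Set G) {x | w₀ x = i} E₀ := by
      intro i hi x hx y hxy
      apply hE₀
      apply hv3 i hi (x * b⁻¹) hx (y * b⁻¹)
      refine hxy.map (fun z => z * b⁻¹) ?_
      intro a c hac hc
      refine ⟨?_, hc⟩
      rw [hconj]
      exact Finset.mem_coe.2 (Finset.mem_image.2 ⟨_, Finset.mem_coe.1 hac, rfl⟩)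
    let S₁ : Finset G := S ∪ Finset.image₂ (fun a s' => a * s')
      (Finset.image₂ (fun s e => s * e) S (E₀.filter (fun e => e ∈ K))) S
    have hS₁ : ∀ s ∈ S₁, s ∈ K := by
      intro s hs
      rcases Finset.mem_union.1 hs with hs | hs
      · exact hS s hs
      · obtain ⟨a, ha, s', hs', rfl⟩ := Finset.mem_image₂.1 hs
        obtain ⟨s'', hs'', e, he, rfl⟩ := Finset.mem_image₂.1 ha
        exact K.mul_mem (K.mul_mem (hS _ hs'') (Finset.mem_filter.1 he).2) (hS _ hs')
    obtain ⟨w₁, E₁, h1, h2, h3⟩ := ih (fun b' hb' => hB b' (Finset.mem_insert_of_mem hb')) S₁ hS₁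
    let w : G → ℕ := fun x => if w₁ x = 0 then w₀ x else w₁ x
    have hw0 : ∀ x, w x = 0 → w₁ x = 0 ∧ w₀ x = 0 := by
      intro x hx
      change (if w₁ x = 0 then w₀ x else w₁ x) = 0 at hx
      split_ifs at hx with h4
      · exact ⟨h4, hx⟩
      · exact absurd hx h4
    refine ⟨w, E₀ ∪ E₁ ∪ suE S E₀ E₁, ?_, ?_, ?_⟩
    · intro x
      change (if w₁ x = 0 then w₀ x else w₁ x) ≤ n
      split_ifs
      · exact hv1 _
      · exact h1 x
    · intro b' hb'
      rcases Finset.mem_insert.1 hb' with rfl | hb'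
      · refine hw₀0.mono (fun _ hs => hs) (fun x hx => (hw0 x hx).2) ?_
        exact (Finset.subset_union_left.trans Finset.subset_union_left)
      · refine (h2 b' hb').mono (fun _ hs => hs) (fun x hx => (hw0 x hx).1) ?_
        exact (Finset.subset_union_right.trans Finset.subset_union_left)
    · intro i hi
      have h5 := bdd_union K S hS {x | w₀ x = i} {x | w₁ x = i} E₀ S₁ E₁ (hw₀i i hi) (h3 i hi)
        Finset.subset_union_left (fun f hf e he heK f' hf' => Finset.mem_union_right _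
          (Finset.mem_image₂.2 ⟨_, Finset.mem_image₂.2 ⟨f, hf, e,
            Finset.mem_filter.2 ⟨he, heK⟩, rfl⟩, f', hf', rfl⟩))
      refine h5.mono (fun _ hs => hs) (fun x hx => ?_) Finset.subset_union_right
      change (if w₁ x = 0 then w₀ x else w₁ x) = i at hx
      split_ifs at hx with h4
      · exact Or.inl hx
      · exact Or.inr hx

end Pool.Agent.Helper65.GN
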