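import Pool.Agent.Helper65.GN.Asc

/-!
GN-16. Towers of subgroups with normal steps.
-/

set_option autoImplicit false

namespace Pool.Agent.Helper65.GN

open Pool.Agent.Helper65.TH
open Pool.Agent.Helper75.Apc (LocallyPolynomialGrowth)

variable {G : Type*} [Group G]

theorem ascendant_tower (H : ℕ → Subgroup G) (hle : ∀ n, H n ≤ H (n + 1))
    (hn : ∀ n, ∀ g ∈ H (n + 1), ∀ k ∈ H n, g * k * g⁻¹ ∈ H n) (m : ℕ) :
    ∀ n, m ≤ n → Ascendant (H m) (H n) := by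
  intro n hmn
  induction n, hmn using Nat.le_induction with
  | base => exact Ascendant.refl
  | succ n _ ih => exact Ascendant.normal _ _ ih (hle n) (hn n)

theorem nice_of_tower (H : ℕ → Subgroup G) (hle : ∀ n, H n ≤ H (n + 1))
    (hn : ∀ n, ∀ g ∈ H (n + 1), ∀ k ∈ H n, g * k * g⁻¹ ∈ H n) (hun : ∀ g : G, ∃ n, g ∈ H n)
    (has : ∀ n, ∃ t : ℕ, AsdimLT (H n) t) : Nice (⊤ : Subgroup G) := by
  intro T _
  have hmono : Monotone H := monotone_nat_of_le_succ hle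
  choose f hf using hun
  obtain ⟨m, hm⟩ : ∃ m, ∀ s ∈ T, s ∈ H m :=
    ⟨T.sup f, fun s hs => hmono (Finset.le_sup (f := f) hs) (hf s)⟩
  refine ⟨H m, hm, ?_, Or.inl (has m)⟩
  have htop : sSup {K | ∃ n, m ≤ n ∧ K = H n} = (⊤ : Subgroup G) := by
    rw [eq_top_iff]
    intro g _
    have h1 : H (max m (f g)) ≤ sSup {K | ∃ n, m ≤ n ∧ K = H n} :=
      le_sSup ⟨max m (f g), le_max_left _ _, rfl⟩
    exact h1 (hmono (le_max_right _ _) (hf g))
  rw [← htop]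
  refine Ascendant.union _ ⟨H m, m, le_rfl, rfl⟩ ?_ ?_
  · rintro _ ⟨a, ha, rfl⟩ _ ⟨b, hb, rfl⟩
    exact ⟨H (max a b), ⟨max a b, ha.trans (le_max_left _ _), rfl⟩, hmono (le_max_left _ _),
      hmono (le_max_right _ _)⟩
  · rintro _ ⟨n, hmn, rfl⟩
    exact ascendant_tower H hle hn m n hmn

end Pool.Agent.Helper65.GN
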