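import Pool.Agent.Helper65.GN.Union

/-!
GN-05. Level sets seen from a coset of another colour.

`XX B κ k k₁ v c` is the set of the points `z` of colour `k` such that some `z * b`, `b ∈ B`, has colour
`k₁` and lies in the level set `{v = c}`.

Proof of `xx_bdd_pos`. Let `z_0, z_1, ...` be a chain with steps in `F' ⊆ K` in the set, and
`b_i ∈ B` witnesses. Write `z_(i+1) = z_i * f`, `f ∈ F'`. Then `κ (z_i * b_(i+1)) =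
κ (z_(i+1) * b_(i+1) * (b_(i+1)⁻¹ * f⁻¹ * b_(i+1))) = κ (z_(i+1) * b_(i+1)) = k₁ = κ (z_i * b_i)` (the element in
the bracket is in `K` by `hn` applied to `b_(i+1)⁻¹ ∈ K'`), so `b_i⁻¹ * b_(i+1) ∈ K` by `hκB` and
`(z_i * b_i)⁻¹ * (z_(i+1) * b_(i+1)) = b_i⁻¹ * f * b_(i+1) = (b_i⁻¹ * b_(i+1)) * (b_(i+1)⁻¹ * f * b_(i+1)) ∈ K`, so it
is in `S'`. So the points `z_i * b_i` form a chain in `{v = c}` with steps in `S'`: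
`(z_0 * b_0)⁻¹ * (z_N * b_N) ∈ E`. (Invariant for `Chain.rec'`: `∃ b ∈ B, κ (z * b) = k₁ ∧ v (z * b) = c ∧
Chain S' {v = c} (z_0 * b_0) (z * b)`.)
Proof of `xx_bdd_zero`. Let `z_0, z_1, ...` be a chain with steps in `T' ⊆ K` in the set; fix the
witness `b_0` of `z_0`, put `y_i = z_i * b_0`. By induction `z_0⁻¹ * z_i ∈ K`, so
`κ (z_i * b_0) = κ (z_0 * b_0 * (b_0⁻¹ * (z_0⁻¹ * z_i) * b_0)) = κ (z_0 * b_0) = k₁`. Let `b_i` be a witness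
of `z_i`; `κ (z_i * b_i) = k₁ = κ (z_i * b_0)`, so `b_0⁻¹ * b_i ∈ K`, hence it is in `C`, and
`v (y_i * (b_0⁻¹ * b_i)) = v (z_i * b_i) = 0`. So `y_i` is in the set `{y | ∃ c ∈ C, v (y * c) = 0}`, and
the steps of the `y_i` are `b_0⁻¹ * t * b_0`, `t ∈ T'`. So `y_0⁻¹ * y_N = b_0⁻¹ * (z_0⁻¹ * z_N) * b_0 ∈ E`.
-/

set_option autoImplicit false

namespace Pool.Agent.Helper65.GN

open Pool.Agent.Helper65.TH

variable {G : Type*} [Group G]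

/-- see above -/
def XX (B : Finset G) {m : ℕ} (κ : G → Fin m) (k k₁ : Fin m) (v : G → ℕ) (c : ℕ) : Set G :=
  {z | κ z = k ∧ ∃ b ∈ B, κ (z * b) = k₁ ∧ v (z * b) = c}

open Classical in
/-- the finite set of the products `b * e * b'⁻¹` -/
noncomputable def conjE (B E : Finset G) : Finset G :=
  (B ×ˢ E ×ˢ B).image (fun p => p.1 * p.2.1 * p.2.2⁻¹)

theorem mem_conjE {B E : Finset G} {b e b' : G} (hb : b ∈ B) (he : e ∈ E) (hb' : b' ∈ B) :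
    b * e * b'⁻¹ ∈ conjE B E := by
  classical
  unfold conjE
  refine Finset.mem_image.2 ⟨(b, e, b'), ?_, rfl⟩
  simp only [Finset.mem_product]
  exact ⟨hb, he, hb'⟩

theorem xx_bdd_pos (K K' : Subgroup G) (hn : ∀ g ∈ K', ∀ k ∈ K, g * k * g⁻¹ ∈ K) (B : Finset G)
    (hB : ∀ b ∈ B, b ∈ K') {m : ℕ} (κ : G → Fin m) (hκK : ∀ x, ∀ k ∈ K, κ (x * k) = κ x)
    (hκB : ∀ x, ∀ b ∈ B, ∀ b' ∈ B, κ (x * b) = κ (x * b') → b⁻¹ * b' ∈ K) (k k₁ : Fin m)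
    (v : G → ℕ) (c : ℕ) (F' S' E : Finset G) (hF' : ∀ f ∈ F', f ∈ K)
    (hS' : ∀ b ∈ B, ∀ f ∈ F', ∀ b' ∈ B, b⁻¹ * f * b' ∈ K → b⁻¹ * f * b' ∈ S')
    (h : Bdd (S' : Set G) {x | v x = c} E) :
    Bdd (F' : Set G) (XX B κ k k₁ v c) (conjE B E) := by
  intro x hx y hxy
  obtain ⟨_, b₀, hb₀, hκ₀, hv₀⟩ := hx
  have key : ∃ b ∈ B, κ (y * b) = k₁ ∧ v (y * b) = c ∧
      Chain (S' : Set G) (fun g => g ∈ {x | v x = c}) (x * b₀) (y * b) := by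
    refine hxy.rec' (R := fun z => ∃ b ∈ B, κ (z * b) = k₁ ∧ v (z * b) = c ∧
      Chain (S' : Set G) (fun g => g ∈ {x | v x = c}) (x * b₀) (z * b))
      ⟨b₀, hb₀, hκ₀, hv₀, Chain.refl _ _ _⟩ ?_
    rintro a z _ ⟨b, hb, hκb, hvb, hch⟩ hs ⟨_, b', hb', hκ', hv'⟩
    have hf : a⁻¹ * z ∈ K := hF' _ hs
    have h1 : b'⁻¹ * (a⁻¹ * z)⁻¹ * b' ∈ K := by
      have := hn b'⁻¹ (K'.inv_mem (hB b' hb')) _ (K.inv_mem hf)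
      rwa [inv_inv] at this
    have h2 : b'⁻¹ * (a⁻¹ * z) * b' ∈ K := by
      have := hn b'⁻¹ (K'.inv_mem (hB b' hb')) _ hf
      rwa [inv_inv] at this
    have h3 : κ (a * b') = k₁ := by
      have h4 : a * b' = (z * b') * (b'⁻¹ * (a⁻¹ * z)⁻¹ * b') := by group
      rw [h4, hκK _ _ h1]
      exact hκ'
    have h5 : b⁻¹ * b' ∈ K := hκB a b hb b' hb' (by rw [hκb, h3])
    have h6 : b⁻¹ * (a⁻¹ * z) * b' ∈ K := by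
      have h7 : b⁻¹ * (a⁻¹ * z) * b' = (b⁻¹ * b') * (b'⁻¹ * (a⁻¹ * z) * b') := by group
      rw [h7]
      exact K.mul_mem h5 h2
    have h8 : (a * b)⁻¹ * (z * b') = b⁻¹ * (a⁻¹ * z) * b' := by group
    refine ⟨b', hb', hκ', hv', hch.step ?_ hv'⟩
    rw [h8]
    exact hS' b hb _ hs b' hb' h6
  obtain ⟨b, hb, _, _, hch⟩ := key
  have h9 : (x * b₀)⁻¹ * (y * b) ∈ E := h _ hv₀ _ hch
  have h10 : x⁻¹ * y = b₀ * ((x * b₀)⁻¹ * (y * b)) * b⁻¹ := by group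
  rw [h10]
  exact mem_conjE hb₀ h9 hb

theorem xx_bdd_zero (K K' : Subgroup G) (hn : ∀ g ∈ K', ∀ k ∈ K, g * k * g⁻¹ ∈ K) (B : Finset G)
    (hB : ∀ b ∈ B, b ∈ K') {m : ℕ} (κ : G → Fin m) (hκK : ∀ x, ∀ k ∈ K, κ (x * k) = κ x)
    (hκB : ∀ x, ∀ b ∈ B, ∀ b' ∈ B, κ (x * b) = κ (x * b') → b⁻¹ * b' ∈ K) (k k₁ : Fin m)
    (v : G → ℕ) (T' C E : Finset G) (hT' : ∀ f ∈ T', f ∈ K)
    (hC : ∀ b ∈ B, ∀ b' ∈ B, b⁻¹ * b' ∈ K → b⁻¹ * b' ∈ C)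
    (h : ∀ b ∈ B, Bdd {s | b * s * b⁻¹ ∈ T'} {y | ∃ c ∈ C, v (y * c) = 0} E) :
    Bdd (T' : Set G) (XX B κ k k₁ v 0) (conjE B E) := by
  intro x hx y hxy
  obtain ⟨_, b₀, hb₀, hκ₀, hv₀⟩ := hx
  have hstart : x * b₀ ∈ {y | ∃ c ∈ C, v (y * c) = 0} := by
    refine ⟨b₀⁻¹ * b₀, hC b₀ hb₀ b₀ hb₀ (by rw [inv_mul_cancel]; exact K.one_mem), ?_⟩
    rw [inv_mul_cancel, mul_one]
    exact hv₀
  have key : Chain {s | b₀ * s * b₀⁻¹ ∈ T'} (fun g => g ∈ {y | ∃ c ∈ C, v (y * c) = 0})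
      (x * b₀) (y * b₀) := by
    refine hxy.rec' (R := fun z => Chain {s | b₀ * s * b₀⁻¹ ∈ T'}
      (fun g => g ∈ {y | ∃ c ∈ C, v (y * c) = 0}) (x * b₀) (z * b₀)) (Chain.refl _ _ _) ?_
    rintro a z hxa hch hs ⟨_, b', hb', hκ', hv'⟩
    have hxa' : x⁻¹ * a ∈ K := hxa.mem_subgroup K (fun s hs => hT' s hs)
    have hxz : x⁻¹ * z ∈ K := by
      have h1 : x⁻¹ * z = (x⁻¹ * a) * (a⁻¹ * z) := by group
      rw [h1]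
      exact K.mul_mem hxa' (hT' _ hs)
    have h2 : b₀⁻¹ * (x⁻¹ * z) * b₀ ∈ K := by
      have := hn b₀⁻¹ (K'.inv_mem (hB b₀ hb₀)) _ hxz
      rwa [inv_inv] at this
    have h3 : κ (z * b₀) = k₁ := by
      have h4 : z * b₀ = (x * b₀) * (b₀⁻¹ * (x⁻¹ * z) * b₀) := by group
      rw [h4, hκK _ _ h2]
      exact hκ₀
    have h5 : b₀⁻¹ * b' ∈ K := hκB z b₀ hb₀ b' hb' (by rw [h3, hκ'])
    refine hch.step ?_ ⟨b₀⁻¹ * b', hC b₀ hb₀ b' hb' h5, ?_⟩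
    · have h6 : b₀ * ((a * b₀)⁻¹ * (z * b₀)) * b₀⁻¹ = a⁻¹ * z := by group
      show b₀ * ((a * b₀)⁻¹ * (z * b₀)) * b₀⁻¹ ∈ T'
      rw [h6]
      exact hs
    · have h7 : z * b₀ * (b₀⁻¹ * b') = z * b' := by group
      rw [h7]
      exact hv'
  have h9 : (x * b₀)⁻¹ * (y * b₀) ∈ E := h b₀ hb₀ _ hstart _ key
  have h10 : x⁻¹ * y = b₀ * ((x * b₀)⁻¹ * (y * b₀)) * b₀⁻¹ := by group
  rw [h10]
  exact mem_conjE hb₀ h9 hb₀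

end Pool.Agent.Helper65.GN
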